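import Pool.Agent.K1H51.LD.Core

set_option autoImplicit false

/-! The fractions `u / p` modulo a prime `M`: exponential sums (following Razborov, Szemeredi and Wigderson)
and the number of those in an interval. -/

namespace Pool.Agent.K1H51.LD

open Finset
open Pool.Agent.H373R2.T7
open Pool.Agent.H807R2.Dav

lemma card_primeFactors_le (n : ℕ) (hn : n ≠ 0) : n.primeFactors.card ≤ Nat.log 2 n := by
  apply Nat.le_log_of_pow_le (by norm_num)
  calc 2 ^ n.primeFactors.card ≤ ∏ p ∈ n.primeFactors, p := by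
        apply Finset.pow_card_le_prod
        intro p hp
        exact (Nat.prime_of_mem_primeFactors hp).two_le
    _ ≤ n := Nat.le_of_dvd (Nat.pos_of_ne_zero hn) (Nat.prod_primeFactors_dvd n)

/-- the index set: the pairs `(p, u)` with a prime `p ≤ P` and `1 ≤ u ≤ S` -/
def pairs (P S : ℕ) : Finset (ℕ × ℕ) := ((Icc 1 P).filter Nat.Prime) ×ˢ (Icc 1 S)

/-- the least non-negative residue of `c + u / p` modulo `M` -/
def frac (M : ℕ) (c : ℤ) (i : ℕ × ℕ) : ℤ := (c + i.2 * (((i.1 : ZMod M)⁻¹.val : ℕ) : ℤ)) % M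

lemma geo_small (S : ℕ) (θ : ℝ) (D : ℝ) (hD : 0 < D) (h : 3 / D ≤ dd θ) :
    ‖∑ u ∈ Icc 1 S, ee ((u : ℝ) * θ)‖ ≤ D := by
  have h1 := geo_bound 1 (S + 1) (by omega) (M := S) (by push_cast; linarith) θ
  have h2 := KK_le' (M := S) (x := θ) (d := 3 / D) (Nat.cast_nonneg _) (by positivity) h
  have h3 : 3 / (3 / D) = D := by field_simp
  rw [h3] at h2
  have e : Icc 1 S = Ico 1 (S + 1) := by ext u; simp only [mem_Icc, mem_Ico]; omega
  rw [e]
  exact h1.trans h2

lemma div_mod_real (n M : ℕ) (hM : 1 ≤ M) : (n : ℝ) / M = ((n % M : ℕ) : ℝ) / M + ((n / M : ℕ) : ℤ) := by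
  have hM0 : (0 : ℝ) < M := by exact_mod_cast hM
  have h7 := Nat.mod_add_div n M
  have h8 : (n : ℝ) = ((n % M : ℕ) : ℝ) + M * ((n / M : ℕ) : ℝ) := by
    exact_mod_cast h7.symm
  rw [div_add' _ _ _ hM0.ne']
  congr 1
  rw [Int.cast_natCast]
  linarith

lemma ee_frac (M : ℕ) (hM : 1 ≤ M) (c : ℤ) (i : ℕ × ℕ) (t : ℕ) :
    ee ((t : ℝ) * ((frac M c i : ℝ) / M)) = ee ((t : ℝ) * ((c : ℝ) / M)) *
      ee ((i.2 : ℝ) * (((t * ((i.1 : ZMod M)⁻¹.val) : ℕ) : ℝ) / M)) := by
  have hM0 : (0 : ℝ) < M := by exact_mod_cast hM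
  have e : (frac M c i : ℝ) = (c + i.2 * (((i.1 : ZMod M)⁻¹.val : ℕ) : ℝ)) - M * (((c + i.2 * (((i.1 : ZMod M)⁻¹.val : ℕ) : ℤ)) / M : ℤ) : ℝ) := by
    have h := Int.emod_add_mul_ediv (c + i.2 * (((i.1 : ZMod M)⁻¹.val : ℕ) : ℤ)) M
    have h2 : frac M c i = (c + i.2 * (((i.1 : ZMod M)⁻¹.val : ℕ) : ℤ)) - M * ((c + i.2 * (((i.1 : ZMod M)⁻¹.val : ℕ) : ℤ)) / M) := by
      unfold frac
      linarith
    rw [h2]
    push_cast
    rfl
  rw [e, ← ee_add, ← ee_add_int (((t : ℝ) * ((c : ℝ) / M)) + _) (-(t * ((c + i.2 * (((i.1 : ZMod M)⁻¹.val : ℕ) : ℤ)) / M : ℤ)))]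
  congr 1
  push_cast
  field_simp
  ring

/-- exponential sums over the family of fractions -/
lemma frac_sum (M P S : ℕ) (hM : M.Prime) (hP : 6 * P < M) (c : ℤ) (t : ℕ) (ht0 : 0 < t) (htM : t < M) :
    ‖∑ i ∈ pairs P S, ee ((t : ℝ) * ((frac M c i : ℝ) / M))‖ ≤
      2 * Nat.log 2 M * S + ((Icc 1 P).filter Nat.Prime).card * P := by
  classical
  have hM1 : 1 ≤ M := hM.one_lt.le
  have hM0 : (0 : ℝ) < M := by exact_mod_cast hM1
  have : Fact M.Prime := ⟨hM⟩
  have h1 : ∑ i ∈ pairs P S, ee ((t : ℝ) * ((frac M c i : ℝ) / M)) = ee ((t : ℝ) * ((c : ℝ) / M)) *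
      ∑ p ∈ (Icc 1 P).filter Nat.Prime, ∑ u ∈ Icc 1 S, ee ((u : ℝ) * (((t * ((p : ZMod M)⁻¹.val) : ℕ) : ℝ) / M)) := by
    unfold pairs
    rw [sum_product, mul_sum]
    apply sum_congr rfl
    intro p _
    rw [mul_sum]
    apply sum_congr rfl
    intro u _
    exact ee_frac M hM1 c (p, u) t
  rw [h1, norm_mul, norm_ee, one_mul]
  obtain ⟨Bad, hBad⟩ : ∃ Bad : Finset ℕ, Bad = t.primeFactors ∪ (M - t).primeFactors := ⟨_, rfl⟩
  have hBadc : (Bad.card : ℝ) ≤ 2 * Nat.log 2 M := by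
    have h2 : Bad.card ≤ Nat.log 2 M + Nat.log 2 M := by
      rw [hBad]
      refine (card_union_le _ _).trans (add_le_add ?_ ?_)
      · exact (card_primeFactors_le t (by omega)).trans (Nat.log_mono_right htM.le)
      · exact (card_primeFactors_le (M - t) (by omega)).trans (Nat.log_mono_right (Nat.sub_le _ _))
    have : (Bad.card : ℝ) ≤ ((Nat.log 2 M + Nat.log 2 M : ℕ) : ℝ) := by exact_mod_cast h2
    push_cast at this
    linarith
  have hterm : ∀ p ∈ (Icc 1 P).filter Nat.Prime, ‖∑ u ∈ Icc 1 S, ee ((u : ℝ) * (((t * ((p : ZMod M)⁻¹.val) : ℕ) : ℝ) / M))‖ ≤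
      (if p ∈ Bad then (S : ℝ) else 0) + P := by
    intro p hp
    rw [mem_filter, mem_Icc] at hp
    have hp0 : 0 < p := by omega
    have hPpos : (0 : ℝ) < P := by exact_mod_cast (by omega : 0 < P)
    have hpz : (p : ZMod M) ≠ 0 := by
      intro h
      rw [ZMod.natCast_eq_zero_iff] at h
      have := Nat.le_of_dvd hp0 h
      omega
    by_cases hb : p ∈ Bad
    · rw [if_pos hb]
      have : ‖∑ u ∈ Icc 1 S, ee ((u : ℝ) * (((t * ((p : ZMod M)⁻¹.val) : ℕ) : ℝ) / M))‖ ≤ S := by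
        refine (norm_sum_le _ _).trans ?_
        simp only [norm_ee]
        rw [sum_const, Nat.card_Icc, nsmul_eq_mul]
        simp
      linarith
    · rw [if_neg hb, zero_add]
      -- the residue
      obtain ⟨r, hr⟩ : ∃ r, r = (t * ((p : ZMod M)⁻¹.val)) % M := ⟨_, rfl⟩
      have hrM : r < M := by rw [hr]; exact Nat.mod_lt _ hM1
      have hcong : ((p * r : ℕ) : ZMod M) = (t : ZMod M) := by
        rw [hr, Nat.cast_mul, ZMod.natCast_mod, Nat.cast_mul, ZMod.natCast_zmod_val]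
        field_simp
      have hr0 : r ≠ 0 := by
        intro h0
        rw [h0, mul_zero, Nat.cast_zero, eq_comm, ZMod.natCast_eq_zero_iff] at hcong
        have := Nat.le_of_dvd ht0 hcong
        omega
      have hbad1 : M ≤ P * r := by
        by_contra hcon
        push Not at hcon
        apply hb
        rw [hBad, mem_union]
        left
        have h3 : p * r < M := lt_of_le_of_lt (Nat.mul_le_mul_right _ hp.1.2) hcon
        have h4 : p * r = t := by
          have h5 := (ZMod.natCast_eq_natCast_iff' _ _ _).1 hcong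
          rwa [Nat.mod_eq_of_lt h3, Nat.mod_eq_of_lt htM] at h5
        rw [Nat.mem_primeFactors]
        exact ⟨hp.2, ⟨r, h4.symm⟩, by omega⟩
      have hbad2 : M ≤ P * (M - r) := by
        by_contra hcon
        push Not at hcon
        apply hb
        rw [hBad, mem_union]
        right
        have h3 : p * (M - r) < M := lt_of_le_of_lt (Nat.mul_le_mul_right _ hp.1.2) hcon
        have hcong2 : ((p * (M - r) : ℕ) : ZMod M) = ((M - t : ℕ) : ZMod M) := by
          rw [Nat.cast_mul, Nat.cast_sub hrM.le, Nat.cast_sub htM.le]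
          rw [Nat.cast_mul] at hcong
          rw [mul_sub, hcong]
          simp
        have h4 : p * (M - r) = M - t := by
          have h5 := (ZMod.natCast_eq_natCast_iff' _ _ _).1 hcong2
          rwa [Nat.mod_eq_of_lt h3, Nat.mod_eq_of_lt (by omega)] at h5
        rw [Nat.mem_primeFactors]
        exact ⟨hp.2, ⟨M - r, h4.symm⟩, by omega⟩
      have hdd : 4 / (P : ℝ) ≤ dd (((t * ((p : ZMod M)⁻¹.val) : ℕ) : ℝ) / M) := by
        have h6 := div_mod_real (t * ((p : ZMod M)⁻¹.val)) M hM1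
        rw [← hr] at h6
        rw [h6, dd_add_int]
        have h9 := dd_ge (t := (r : ℝ) / M) (by positivity) (by
          rw [div_le_one hM0]
          exact_mod_cast hrM.le)
        refine le_trans ?_ h9
        have h10 : 1 / (P : ℝ) ≤ min ((r : ℝ) / M) (1 - (r : ℝ) / M) := by
          rw [le_min_iff]
          constructor
          · rw [div_le_div_iff₀ hPpos hM0]
            have : (M : ℝ) ≤ P * r := by exact_mod_cast hbad1
            linarith
          · have e : 1 - (r : ℝ) / M = (((M - r : ℕ) : ℝ)) / M := by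
              rw [Nat.cast_sub hrM.le]
              field_simp
            rw [e, div_le_div_iff₀ hPpos hM0]
            have : (M : ℝ) ≤ P * ((M - r : ℕ) : ℝ) := by exact_mod_cast hbad2
            linarith
        calc 4 / (P : ℝ) = 4 * (1 / P) := by ring
          _ ≤ _ := by linarith
      apply geo_small S _ P hPpos
      refine le_trans ?_ hdd
      apply div_le_div_of_nonneg_right _ hPpos.le
      norm_num
  refine (norm_sum_le _ _).trans ((sum_le_sum hterm).trans ?_)
  rw [sum_add_distrib, sum_const, nsmul_eq_mul]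
  apply add_le_add _ le_rfl
  rw [← sum_filter, sum_const, nsmul_eq_mul]
  apply mul_le_mul_of_nonneg_right _ (Nat.cast_nonneg _)
  refine le_trans ?_ hBadc
  exact_mod_cast card_le_card (fun p hp => (mem_filter.1 hp).2)

/-- the number of members of a family with small exponential sums in an interval -/
lemma count_interval {ι : Type*} (I : Finset ι) (s : ι → ℤ) (M h : ℕ) (hM : 1 ≤ M) (h1 : 1 ≤ h) (hh : 2 * h < M)
    (hs : ∀ i ∈ I, 0 ≤ s i ∧ s i < M) (η : ℝ) (hη : 0 ≤ η)
    (hsum : ∀ t : ℕ, 0 < t → t < M → ‖∑ i ∈ I, ee ((t : ℝ) * ((s i : ℝ) / M))‖ ≤ η * I.card) :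
    (I.card : ℝ) * (h / M - η) ≤ ((I.filter (fun i => 1 ≤ s i ∧ s i ≤ 2 * h)).card : ℝ) := by
  classical
  have hM0 : (0 : ℝ) < M := by exact_mod_cast hM
  have hh0 : (0 : ℝ) < h := by exact_mod_cast h1
  obtain ⟨J, hJ⟩ : ∃ J : ℕ → ℂ, J = fun t : ℕ => ∑ a ∈ Icc 1 h, (1 : ℂ) * ee ((t : ℝ) * ((((-1 : ℤ) * a : ℤ) : ℝ) / M)) := ⟨_, rfl⟩
  obtain ⟨R, hR⟩ : ∃ R : ℕ → ℂ, R = fun t : ℕ => ∑ i ∈ I, ee ((t : ℝ) * ((s i : ℝ) / M)) := ⟨_, rfl⟩
  have hid : ∑ t ∈ range M, J t * J t * R t = M * ∑ i ∈ I, ∑ a ∈ Icc 1 h, ∑ b ∈ Icc 1 h,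
      if (M : ℤ) ∣ s i - a - b then (1 : ℂ) else 0 := by
    have h2 : ∀ t ∈ range M, J t * J t * R t = ∑ i ∈ I, ∑ a ∈ Icc 1 h, ∑ b ∈ Icc 1 h,
        ee ((t : ℝ) * (((s i - a - b : ℤ) : ℝ) / M)) := by
      intro t _
      rw [hJ, hR]
      simp only
      rw [sum_mul_sum, mul_sum]
      apply sum_congr rfl
      intro i _
      rw [sum_mul]
      apply sum_congr rfl
      intro a _
      rw [sum_mul]
      apply sum_congr rfl
      intro b _
      rw [one_mul, one_mul, ← ee_add, ← ee_add]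
      congr 1
      push_cast
      ring
    rw [sum_congr rfl h2, sum_comm, mul_sum]
    apply sum_congr rfl
    intro i _
    rw [sum_comm, mul_sum]
    apply sum_congr rfl
    intro a _
    rw [sum_comm, mul_sum]
    apply sum_congr rfl
    intro b _
    rw [orth M hM]
    split_ifs <;> simp
  -- the count on the right
  have hcnt : (∑ i ∈ I, ∑ a ∈ Icc 1 h, ∑ b ∈ Icc 1 h, if (M : ℤ) ∣ s i - a - b then (1 : ℝ) else 0) ≤
      h * ((I.filter (fun i => 1 ≤ s i ∧ s i ≤ 2 * h)).card : ℝ) := by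
    have h3 : ∀ i ∈ I, (∑ a ∈ Icc 1 h, ∑ b ∈ Icc 1 h, if (M : ℤ) ∣ s i - a - b then (1 : ℝ) else 0) ≤
        if 1 ≤ s i ∧ s i ≤ 2 * h then (h : ℝ) else 0 := by
      intro i hi
      have hdiv : ∀ a ∈ Icc 1 h, ∀ b ∈ Icc 1 h, (M : ℤ) ∣ s i - a - b → s i = a + b := by
        intro a ha b hb hd
        rw [mem_Icc] at ha hb
        have h4 : |s i - a - b| < M := by
          have := hs i hi
          rw [abs_lt]
          constructor <;> omega
        have := Int.eq_zero_of_abs_lt_dvd hd h4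
        omega
      split_ifs with hc
      · have h5 : ∀ a ∈ Icc 1 h, (∑ b ∈ Icc 1 h, if (M : ℤ) ∣ s i - a - b then (1 : ℝ) else 0) ≤ 1 := by
          intro a ha
          rw [← sum_filter, sum_const, nsmul_eq_mul, mul_one]
          have : ((Icc 1 h).filter (fun b : ℕ => (M : ℤ) ∣ s i - a - b)).card ≤ 1 := by
            rw [card_le_one]
            intro b hb b' hb'
            rw [mem_filter] at hb hb'
            have e1 := hdiv a ha b hb.1 hb.2
            have e2 := hdiv a ha b' hb'.1 hb'.2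
            omega
          exact_mod_cast this
        refine (sum_le_sum h5).trans ?_
        rw [sum_const, Nat.card_Icc, nsmul_eq_mul]
        simp
      · apply le_of_eq
        apply sum_eq_zero
        intro a ha
        apply sum_eq_zero
        intro b hb
        rw [if_neg]
        intro hd
        apply hc
        have e1 := hdiv a ha b hb hd
        rw [mem_Icc] at ha hb
        omega
    refine (sum_le_sum h3).trans (le_of_eq ?_)
    rw [← sum_filter, sum_const, nsmul_eq_mul, mul_comm]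
  -- lower bound for the left side
  have hJ0 : J 0 = h := by
    rw [hJ]
    simp [ee_zero]
  have hR0 : R 0 = I.card := by
    rw [hR]
    simp [ee_zero]
  have hsplit : ∑ t ∈ range M, J t * J t * R t = (h : ℂ) * h * I.card + ∑ t ∈ (range M).erase 0, J t * J t * R t := by
    rw [← add_sum_erase (range M) _ (mem_range.2 (by omega : 0 < M)), hJ0, hR0]
  have hrest : ‖∑ t ∈ (range M).erase 0, J t * J t * R t‖ ≤ η * I.card * (M * h) := by
    have h4 : ∀ t ∈ (range M).erase 0, ‖J t * J t * R t‖ ≤ η * I.card * ‖J t‖ ^ 2 := by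
      intro t ht
      rw [mem_erase, mem_range] at ht
      rw [norm_mul, norm_mul]
      have h5 := hsum t (by omega) ht.2
      have h6 : ‖R t‖ ≤ η * I.card := by rw [hR]; exact h5
      calc ‖J t‖ * ‖J t‖ * ‖R t‖ ≤ ‖J t‖ * ‖J t‖ * (η * I.card) := mul_le_mul_of_nonneg_left h6 (by positivity)
        _ = _ := by ring
    refine (norm_sum_le _ _).trans ((sum_le_sum h4).trans ?_)
    rw [← mul_sum]
    apply mul_le_mul_of_nonneg_left _ (by positivity)
    have h7 : ∑ t ∈ (range M).erase 0, ‖J t‖ ^ 2 ≤ ∑ t ∈ range M, ‖J t‖ ^ 2 :=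
      sum_le_sum_of_subset_of_nonneg (erase_subset _ _) (fun _ _ _ => by positivity)
    refine h7.trans (le_of_eq ?_)
    have h8 := parseval_Icc h M hM (by omega) (fun _ => 1) (-1) (Or.inr rfl)
    rw [hJ]
    simp only
    rw [h8]
    simp
  have hmain : (h : ℝ) * h * I.card - η * I.card * (M * h) ≤ M * (h * ((I.filter (fun i => 1 ≤ s i ∧ s i ≤ 2 * h)).card : ℝ)) := by
    have h9 : ((M * ∑ i ∈ I, ∑ a ∈ Icc 1 h, ∑ b ∈ Icc 1 h, (if (M : ℤ) ∣ s i - a - b then (1 : ℝ) else 0) : ℝ) : ℂ) =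
        (h : ℂ) * h * I.card + ∑ t ∈ (range M).erase 0, J t * J t * R t := by
      rw [← hsplit, hid]
      push_cast
      congr 1
      apply sum_congr rfl
      intro i _
      apply sum_congr rfl
      intro a _
      apply sum_congr rfl
      intro b _
      split_ifs <;> simp
    have h10 : ∑ t ∈ (range M).erase 0, J t * J t * R t =
        (((M * ∑ i ∈ I, ∑ a ∈ Icc 1 h, ∑ b ∈ Icc 1 h, (if (M : ℤ) ∣ s i - a - b then (1 : ℝ) else 0)) - h * h * I.card : ℝ) : ℂ) := by
      push_cast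
      push_cast at h9
      rw [h9]
      ring
    rw [h10, Complex.norm_real, Real.norm_eq_abs] at hrest
    have h11 := (abs_le.1 hrest).1
    have h12 := mul_le_mul_of_nonneg_left hcnt hM0.le
    linarith
  have hfin : (I.card : ℝ) * (h / M - η) = (h * h * I.card - η * I.card * (M * h)) / (M * h) := by
    field_simp
  rw [hfin, div_le_iff₀ (by positivity)]
  linarith

end Pool.Agent.K1H51.LD
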