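import Pool.Agent.K1H51.LD.Sup

set_option autoImplicit false

/-! The first moment along a family with a small large spectrum. -/

namespace Pool.Agent.K1H51.LD

open Finset
open Pool.Agent.H373R2.T7
open Pool.Agent.H807R2.Dav

theorem mom_of_spec (B K W : ℕ) : ∃ U' N0 : ℕ, ∀ N : ℕ, N0 ≤ N → ∀ (x : ℕ) (s : ℕ → ℤ) (M : ℕ),
    (3 * B + 2) * N ≤ M →
    ((spec M x s (1 / Real.log N ^ (2 * W + 3))).card : ℝ) * N ≤ Real.log N ^ K * M → Mom B N x W U' s := by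
  obtain ⟨n1, h1⟩ := ev_L' (12 * (B + 1) ^ 3)
  refine ⟨K + W + 1, n1 + 3, fun N hN x s M hM hspec => ?_⟩
  intro f hf1 hf2 A hA G hG
  have hL := h1 N (by omega)
  obtain ⟨L, hLd⟩ : ∃ L, L = Real.log (N : ℝ) := ⟨_, rfl⟩
  rw [← hLd] at hL hspec hf1 hf2 ⊢
  have hB0 : (0 : ℝ) ≤ B := Nat.cast_nonneg _
  have hB1 : (1 : ℝ) ≤ (B + 1) ^ 3 := by
    have : (1 : ℝ) ≤ B + 1 := by linarith
    exact one_le_pow₀ this
  have hL1 : 1 ≤ L := by linarith
  have hL0 : 0 < L := by linarith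
  have hN0 : (0 : ℝ) < N := by exact_mod_cast (by omega : 0 < N)
  obtain ⟨H, hH⟩ : ∃ H, H = 2 * ((B + 1) * N) := ⟨_, rfl⟩
  rw [← hH] at hf1 hf2 ⊢
  have hHr : (H : ℝ) = 2 * ((B + 1) * N) := by rw [hH]; push_cast; ring
  have hAH : A + H ≤ M := by
    have : A + H ≤ (3 * B + 2) * N := by
      rw [hH]
      calc A + 2 * ((B + 1) * N) ≤ B * N + 2 * ((B + 1) * N) := by omega
        _ = (3 * B + 2) * N := by ring
    omega
  have hM1 : 1 ≤ M := by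
    have : 1 ≤ H := by
      rw [hH]
      have : 1 ≤ (B + 1) * N := Nat.mul_pos (by omega) (by omega)
      omega
    omega
  have hM0 : (0 : ℝ) < M := by exact_mod_cast hM1
  have hAr : (A : ℝ) ≤ (B + 1) * N := by
    have : (A : ℝ) ≤ B * N := by exact_mod_cast hA
    nlinarith
  have hA0 : (0 : ℝ) ≤ A := Nat.cast_nonneg _
  have hx0 : (0 : ℝ) ≤ x := Nat.cast_nonneg _
  have key := core A H x M hM1 hAH f G s (1 / L ^ (2 * W + 3)) (H / L ^ (K + W + 1)) (H * (2 * L) ^ 2) A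
    (by positivity) hf1 (by
      have h4 : ∀ n ∈ Icc 1 H, ‖f n‖ ^ 2 ≤ (2 * L) ^ 2 := by
        intro n hn
        exact pow_le_pow_left₀ (norm_nonneg _) (hf2 n hn) _
      refine (sum_le_sum h4).trans ?_
      rw [sum_const, Nat.card_Icc, nsmul_eq_mul]
      simp) (by
      have h5 : ∀ a ∈ Icc 1 A, ‖G a‖ ^ 2 ≤ 1 := fun a _ => pow_le_one₀ (norm_nonneg _) (hG a)
      refine (sum_le_sum h5).trans ?_
      rw [sum_const, Nat.card_Icc, nsmul_eq_mul]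
      simp)
  have t1 : 1 / L ^ (2 * W + 3) * x * (H * (2 * L) ^ 2) * A ≤ (8 * (B + 1) ^ 2 / L) * (x * N ^ 2 / L ^ (2 * W)) := by
    calc 1 / L ^ (2 * W + 3) * x * (H * (2 * L) ^ 2) * A ≤ 1 / L ^ (2 * W + 3) * x * (H * (2 * L) ^ 2) * ((B + 1) * N) :=
          mul_le_mul_of_nonneg_left hAr (by positivity)
      _ = _ := by
          rw [hHr, show 2 * W + 3 = 2 * W + 1 + 1 + 1 from rfl, pow_succ, pow_succ, pow_succ]
          field_simp
          ring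
  have t2 : (spec M x s (1 / L ^ (2 * W + 3))).card * x * (H / L ^ (K + W + 1)) ^ 2 * A / M ≤
      (4 * (B + 1) ^ 3 / L) * (x * N ^ 2 / L ^ (2 * W)) := by
    have h1 : (spec M x s (1 / L ^ (2 * W + 3))).card * x * (H / L ^ (K + W + 1)) ^ 2 * A / M =
        ((spec M x s (1 / L ^ (2 * W + 3))).card * N) * (x * (H / L ^ (K + W + 1)) ^ 2 * A / (M * N)) := by
      field_simp
    rw [h1]
    have h2 : ((spec M x s (1 / L ^ (2 * W + 3))).card * N : ℝ) * (x * (H / L ^ (K + W + 1)) ^ 2 * A / (M * N)) ≤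
        (L ^ K * M) * (x * (H / L ^ (K + W + 1)) ^ 2 * ((B + 1) * N) / (M * N)) := by
      apply mul_le_mul hspec _ (by positivity) (by positivity)
      apply div_le_div_of_nonneg_right _ (by positivity)
      exact mul_le_mul_of_nonneg_left hAr (by positivity)
    refine h2.trans ?_
    have h3 : (L ^ K * M) * (x * (H / L ^ (K + W + 1)) ^ 2 * ((B + 1) * N) / (M * N)) =
        (4 * (B + 1) ^ 3 / L) * (x * N ^ 2 / L ^ (2 * W)) * (1 / L ^ (K + 1)) := by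
      rw [hHr]
      have e : L ^ (K + W + 1) = L ^ K * L ^ W * L := by rw [pow_add, pow_add]; ring
      have e2 : L ^ (2 * W) = L ^ W * L ^ W := by rw [two_mul, pow_add]
      have e3 : L ^ (K + 1) = L ^ K * L := pow_succ _ _
      rw [e, e2, e3]
      field_simp
      ring
    rw [h3]
    have h4 : 1 / L ^ (K + 1) ≤ 1 := by
      rw [div_le_one (by positivity)]
      exact one_le_pow₀ hL1
    calc (4 * ((B : ℝ) + 1) ^ 3 / L) * (x * N ^ 2 / L ^ (2 * W)) * (1 / L ^ (K + 1)) ≤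
        (4 * ((B : ℝ) + 1) ^ 3 / L) * (x * N ^ 2 / L ^ (2 * W)) * 1 := mul_le_mul_of_nonneg_left h4 (by positivity)
      _ = _ := mul_one _
  have hsum : ∑ m ∈ Icc 1 x, ‖∑ a ∈ Icc 1 A, G a * fz f H (a + s m)‖ ^ 2 ≤ x * N ^ 2 / L ^ (2 * W) := by
    refine key.trans ((add_le_add t1 t2).trans ?_)
    have e : (8 * ((B : ℝ) + 1) ^ 2 / L) * (x * N ^ 2 / L ^ (2 * W)) + (4 * (B + 1) ^ 3 / L) * (x * N ^ 2 / L ^ (2 * W)) =
        ((8 * ((B : ℝ) + 1) ^ 2 + 4 * (B + 1) ^ 3) / L) * (x * N ^ 2 / L ^ (2 * W)) := by ring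
    rw [e]
    have h5 : (8 * ((B : ℝ) + 1) ^ 2 + 4 * (B + 1) ^ 3) / L ≤ 1 := by
      rw [div_le_one hL0]
      have : ((B : ℝ) + 1) ^ 2 ≤ (B + 1) ^ 3 := pow_le_pow_right₀ (by linarith) (by norm_num)
      linarith
    calc _ ≤ 1 * (x * (N : ℝ) ^ 2 / L ^ (2 * W)) := mul_le_mul_of_nonneg_right h5 (by positivity)
      _ = _ := one_mul _
  have hcs := sum_mul_sq_le_sq_mul_sq (Icc 1 x) (fun _ => (1 : ℝ)) (fun m => ‖∑ a ∈ Icc 1 A, G a * fz f H (a + s m)‖)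
  simp only [one_mul, one_pow, sum_const, Nat.card_Icc, nsmul_eq_mul, mul_one, Nat.add_sub_cancel] at hcs
  have hfin : (∑ m ∈ Icc 1 x, ‖∑ a ∈ Icc 1 A, G a * fz f H (a + s m)‖) ^ 2 ≤ (N * x / L ^ W) ^ 2 := by
    refine hcs.trans ((mul_le_mul_of_nonneg_left hsum hx0).trans (le_of_eq ?_))
    rw [div_pow, ← pow_mul, mul_comm W 2]
    ring
  exact (pow_le_pow_iff_left₀ (sum_nonneg fun _ _ => norm_nonneg _) (by positivity) two_ne_zero).1 hfin

lemma norm_refl (x M : ℕ) (s : ℕ → ℤ) (c : ℤ) (t : ℕ) :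
    ‖∑ m ∈ Icc 1 x, ee ((t : ℝ) * (((c - s m : ℤ) : ℝ) / M))‖ = ‖∑ m ∈ Icc 1 x, ee ((t : ℝ) * ((s m : ℝ) / M))‖ := by
  have h : ∑ m ∈ Icc 1 x, ee ((t : ℝ) * (((c - s m : ℤ) : ℝ) / M)) =
      ee ((t : ℝ) * ((c : ℝ) / M)) * (starRingEnd ℂ) (∑ m ∈ Icc 1 x, ee ((t : ℝ) * ((s m : ℝ) / M))) := by
    rw [map_sum, mul_sum]
    apply sum_congr rfl
    intro m _
    rw [conj_ee, ← ee_add]
    congr 1
    push_cast
    ring
  rw [h, norm_mul, norm_ee, one_mul, RCLike.norm_conj]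

lemma spec_refl (M x : ℕ) (s : ℕ → ℤ) (c : ℤ) (η : ℝ) : spec M x (fun m => c - s m) η = spec M x s η := by
  classical
  unfold spec
  apply filter_congr
  intro t _
  rw [norm_refl]

end Pool.Agent.K1H51.LD
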