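import Pool.Agent.K1H51.LD.Lev
import Pool.Agent.K1H51.LD.Spec
import Pool.Agent.K1H51.LD.Rsw

set_option autoImplicit false

/-! The criterion for families indexed by an arbitrary finite set, and its application to fractions. -/

namespace Pool.Agent.K1H51.LD

open Finset
open Pool.Agent.H373R2.T7
open Pool.Agent.H807R2.Dav
open Pool.Agent.W93.LV

/-- enumeration of a finite set -/
lemma enum {ι : Type*} (I : Finset ι) (hI : I.Nonempty) : ∃ e : ℕ → ι, (∀ m ∈ Icc 1 I.card, e m ∈ I) ∧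
    (∀ m ∈ Icc 1 I.card, ∀ m' ∈ Icc 1 I.card, e m = e m' → m = m') ∧ (∀ i ∈ I, ∃ m ∈ Icc 1 I.card, e m = i) := by
  classical
  obtain ⟨i0, hi0⟩ := hI
  refine ⟨fun m => if h : 1 ≤ m ∧ m ≤ I.card then (I.equivFin.symm ⟨m - 1, by omega⟩ : I) else i0, ?_, ?_, ?_⟩
  · intro m hm
    rw [mem_Icc] at hm
    simp only [dif_pos hm]
    exact (I.equivFin.symm _).2
  · intro m hm m' hm' h
    rw [mem_Icc] at hm hm'
    simp only [dif_pos hm, dif_pos hm'] at h
    have h1 := I.equivFin.symm.injective (Subtype.ext h)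
    rw [Fin.mk.injEq] at h1
    omega
  · intro i hi
    refine ⟨(I.equivFin ⟨i, hi⟩ : ℕ) + 1, ?_, ?_⟩
    · rw [mem_Icc]
      have := (I.equivFin ⟨i, hi⟩).2
      omega
    · have h1 : 1 ≤ (I.equivFin ⟨i, hi⟩ : ℕ) + 1 ∧ (I.equivFin ⟨i, hi⟩ : ℕ) + 1 ≤ I.card := by
        have := (I.equivFin ⟨i, hi⟩).2
        omega
      simp only [dif_pos h1]
      have h2 : (⟨(I.equivFin ⟨i, hi⟩ : ℕ) + 1 - 1, by have := (I.equivFin ⟨i, hi⟩).2; omega⟩ : Fin I.card) = I.equivFin ⟨i, hi⟩ := by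
        apply Fin.ext
        simp
      rw [h2, Equiv.symm_apply_apply]

open Classical in
/-- the large spectrum of the family `s i`, `i ∈ I`, modulo `M` -/
noncomputable def specI {ι : Type*} (M : ℕ) (I : Finset ι) (s : ι → ℤ) (η : ℝ) : Finset ℕ :=
  (range M).filter (fun t => η * I.card < ‖∑ i ∈ I, ee ((t : ℝ) * ((s i : ℝ) / M))‖)

open Classical in
theorem crit (B T U : ℕ) : ∃ U1 : ℕ, ∀ K : ℕ, ∃ K' N₀ : ℕ, ∀ N : ℕ, N₀ ≤ N → ∀ M : ℕ, (6 * B + 8) * N ≤ M →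
    ∀ {ι : Type} (I : Finset ι) (s : ι → ℤ),
    ((specI M I s (1 / Real.log N ^ U1)).card : ℝ) * N ≤ Real.log N ^ K * M →
    ∀ lam : ℕ → ℝ, (∀ q, |lam q| ≤ Real.log N ^ T) → ∀ Q : ℕ,
    (Q : ℝ) ≤ N * Real.exp (-(K' * Real.log (Real.log N) ^ 2)) →
    ((I.filter (fun i => (0 < s i ∧ s i ≤ B * N) ∧ ∃ y ≤ B * N, N / Real.log N ^ U <
      |∑ q ∈ (Icc 1 Q).filter (fun q => (s i).toNat.Coprime q),
        lam q * (Fu (fun n => ArithmeticFunction.vonMangoldt n) y q (s i).toNat - (y : ℝ) / Nat.totient q)|)).card : ℝ) ≤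
      I.card / Real.log N ^ U := by
  obtain ⟨W, hW⟩ : ∃ W, W = 4 * T + 5 * U + 22 := ⟨_, rfl⟩
  refine ⟨2 * W + 3, fun K => ?_⟩
  obtain ⟨U', n1, h1⟩ := mom_of_spec (2 * B + 2) K W
  obtain ⟨K', n2, h2⟩ := gen_lv B T U U'
  refine ⟨K', n1 + n2 + 3, fun N hN M hM ι I s hspec lam hlam Q hQ => ?_⟩
  rcases I.eq_empty_or_nonempty with hI | hI
  · subst hI
    simp
  obtain ⟨e, he1, he2, he3⟩ := enum I hI
  have hsum : ∀ g : ι → ℂ, ∑ m ∈ Icc 1 I.card, g (e m) = ∑ i ∈ I, g i := by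
    intro g
    exact sum_bij (fun m _ => e m) he1 (fun m hm m' hm' h => he2 m hm m' hm' h) (fun i hi => by
      obtain ⟨m, hm, h⟩ := he3 i hi
      exact ⟨m, hm, h⟩) (fun _ _ => rfl)
  have hs : spec M I.card (fun m => s (e m)) (1 / Real.log N ^ (2 * W + 3)) = specI M I s (1 / Real.log N ^ (2 * W + 3)) := by
    unfold spec specI
    apply filter_congr
    intro t _
    rw [hsum (fun i => ee ((t : ℝ) * ((s i : ℝ) / M)))]
  have m1 := h1 N (by omega) I.card (fun m => s (e m)) M (by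
    refine le_trans (le_of_eq ?_) hM
    ring) (by rw [hs]; exact hspec)
  have m2 := h1 N (by omega) I.card (fun m => (((B + 1) * N + 1 : ℕ) : ℤ) - s (e m)) M (by
    refine le_trans (le_of_eq ?_) hM
    ring) (by rw [spec_refl, hs]; exact hspec)
  rw [hW] at m1 m2
  obtain ⟨P, hP⟩ : ∃ P : ι → Prop, P = fun i => (0 < s i ∧ s i ≤ B * N) ∧ ∃ y ≤ B * N, N / Real.log N ^ U <
      |∑ q ∈ (Icc 1 Q).filter (fun q => (s i).toNat.Coprime q),
        lam q * (Fu (fun n => ArithmeticFunction.vonMangoldt n) y q (s i).toNat - (y : ℝ) / Nat.totient q)| := ⟨_, rfl⟩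
  have h3 := h2 N (by omega) I.card (fun m => s (e m)) m1 m2 lam hlam Q hQ
    ((Icc 1 I.card).filter (fun m => P (e m))) (filter_subset _ _) (fun m hm => by
      have := (mem_filter.1 hm).2
      rw [hP] at this
      exact this)
  refine le_trans ?_ h3
  have h4 : (I.filter P).card ≤ ((Icc 1 I.card).filter (fun m => P (e m))).card := by
    apply card_le_card_of_surjOn e
    intro i hi
    rw [mem_coe, mem_filter] at hi
    obtain ⟨m, hm, h⟩ := he3 i hi.1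
    refine ⟨m, ?_, h⟩
    rw [mem_coe, mem_filter]
    exact ⟨hm, by rw [h]; exact hi.2⟩
  rw [hP] at h4 ⊢
  exact_mod_cast h4

lemma log_pow_ev (n : ℕ) : ∃ N0 : ℕ, ∀ N : ℕ, N0 ≤ N → (n : ℝ) * Real.log (Real.log N) ≤ Real.log N ∧ 1 ≤ Real.log (Real.log N) := by
  have hlim : Filter.Tendsto (fun N : ℕ => Real.log (N : ℝ)) Filter.atTop Filter.atTop :=
    Real.tendsto_log_atTop.comp (tendsto_natCast_atTop_atTop (R := ℝ))
  have h1 : ∀ᶠ N : ℕ in Filter.atTop, 1 ≤ Real.log (Real.log N) :=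
    (Real.tendsto_log_atTop.comp hlim).eventually_ge_atTop 1
  have h2 := (Real.isLittleO_log_id_atTop.comp_tendsto hlim).def (c := 1 / (n + 1)) (by positivity)
  obtain ⟨N0, h0⟩ := Filter.eventually_atTop.1 ((h1.and h2).and (hlim.eventually_ge_atTop 1))
  refine ⟨N0, fun N hN => ?_⟩
  obtain ⟨⟨h3, h4⟩, h5⟩ := h0 N hN
  refine ⟨?_, h3⟩
  simp only [Function.comp, id] at h4
  rw [Real.norm_of_nonneg (by linarith), Real.norm_of_nonneg (by linarith), one_div, inv_mul_eq_div,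
    le_div_iff₀ (by positivity)] at h4
  have : 0 ≤ Real.log (Real.log N) := by linarith
  linarith

/-- the number of primes up to a power of the logarithm -/
lemma primes_many (C : ℕ) (hC : 1 ≤ C) : ∃ N0 : ℕ, ∀ N : ℕ, N0 ≤ N →
    Real.log N ^ C ≤ 8 * Real.log N * (((Icc 1 ⌊Real.log N ^ C⌋₊).filter Nat.Prime).card : ℝ) := by
  obtain ⟨n1, h1⟩ := log_pow_ev C
  obtain ⟨n2, h2⟩ := ev_L' 8
  refine ⟨n1 + n2, fun N hN => ?_⟩
  obtain ⟨h3, h4⟩ := h1 N (by omega)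
  have h5 := h2 N (by omega)
  push_cast at h5
  obtain ⟨L, hL⟩ : ∃ L, L = Real.log (N : ℝ) := ⟨_, rfl⟩
  rw [← hL] at h3 h4 h5 ⊢
  obtain ⟨P, hP⟩ : ∃ P, P = ⌊L ^ C⌋₊ := ⟨_, rfl⟩
  rw [← hP]
  have hLC : 8 ≤ L ^ C := by
    calc (8 : ℝ) ≤ L := by linarith
      _ = L ^ 1 := (pow_one L).symm
      _ ≤ L ^ C := pow_le_pow_right₀ (by linarith) hC
  have hP1 : (P : ℝ) ≤ L ^ C := by rw [hP]; exact Nat.floor_le (by positivity)
  have hP2 : L ^ C < P + 1 := by rw [hP]; exact Nat.lt_floor_add_one _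
  have hP7 : (7 : ℝ) ≤ P := by linarith
  have hlogP : Real.log P ≤ L := by
    refine (Real.log_le_log (by linarith) hP1).trans ?_
    rw [Real.log_pow]
    exact h3
  have hlogP0 : 0 < Real.log P := Real.log_pos (by linarith)
  have hpi := Chebyshev.pi_ge P
  rw [div_le_iff₀ hlogP0] at hpi
  have hl2 := Real.log_two_gt_d9
  have hlog1 : Real.log ((P : ℝ) + 1) ≤ P * (3 / 8) := by
    have h6 : Real.log ((P : ℝ) + 1) = Real.log (((P : ℝ) + 1) / 8) + Real.log 8 := by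
      rw [← Real.log_mul (by positivity) (by norm_num)]
      congr 1
      field_simp
    have h7 := Real.log_le_sub_one_of_pos (show 0 < ((P : ℝ) + 1) / 8 by positivity)
    have h8 : Real.log 8 = 3 * Real.log 2 := by
      rw [show (8 : ℝ) = 2 ^ 3 by norm_num, Real.log_pow]
      norm_num
    have h9 := Real.log_two_lt_d9
    rw [h6, h8]
    linarith
  have hcard : ((((Icc 1 P).filter Nat.Prime).card : ℕ) : ℝ) = Nat.primeCounting P := by
    rw [← Nat.primesLE_card_eq_primeCounting]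
    congr 2
    ext p
    rw [mem_filter, mem_Icc, Nat.mem_primesLE]
    constructor
    · rintro ⟨⟨_, h6⟩, h7⟩
      exact ⟨h6, h7⟩
    · rintro ⟨h6, h7⟩
      exact ⟨⟨h7.one_lt.le, h6⟩, h7⟩
  rw [hcard]
  have h10 : (P : ℝ) * (1 / 4) ≤ Nat.primeCounting P * L := by
    have h11 : (Nat.primeCounting P : ℝ) * Real.log P ≤ Nat.primeCounting P * L :=
      mul_le_mul_of_nonneg_left hlogP (Nat.cast_nonneg _)
    nlinarith
  linarith

end Pool.Agent.K1H51.LD
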