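import Mathlib
import Pool.Agent.H373R2.T7.BilF

set_option autoImplicit false

/-! The second moment of a bilinear form along a family with a small large spectrum. -/

namespace Pool.Agent.K1H51.LD

open Finset Pool.Agent.H373R2.T7
open Pool.Agent.H807R2.Dav

open Classical in
/-- the large spectrum of the family `s 1, ..., s x` modulo `M`: the frequencies `t` modulo `M` whose
exponential sum is larger than `η x` -/
noncomputable def spec (M x : ℕ) (s : ℕ → ℤ) (η : ℝ) : Finset ℕ :=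
  (range M).filter (fun t => η * x < ‖∑ m ∈ Icc 1 x, ee ((t : ℝ) * ((s m : ℝ) / M))‖)

lemma sum_zmod (M : ℕ) [NeZero M] (g : ℕ → ℝ) : ∑ t : ZMod M, g t.val = ∑ t ∈ range M, g t := by
  symm
  refine sum_nbij' (fun t : ℕ => (t : ZMod M)) (fun t : ZMod M => t.val) ?_ ?_ ?_ ?_ ?_
  · intro t _
    exact mem_univ _
  · intro t _
    rw [mem_range]
    exact ZMod.val_lt t
  · intro t ht
    rw [mem_range] at ht
    exact ZMod.val_cast_of_lt ht
  · intro t _
    exact ZMod.natCast_zmod_val t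
  · intro t ht
    rw [mem_range] at ht
    rw [ZMod.val_cast_of_lt ht]

lemma sum_zmodC (M : ℕ) [NeZero M] (g : ℕ → ℂ) : ∑ t : ZMod M, g t.val = ∑ t ∈ range M, g t := by
  symm
  refine sum_nbij' (fun t : ℕ => (t : ZMod M)) (fun t : ZMod M => t.val) ?_ ?_ ?_ ?_ ?_
  · intro t _
    exact mem_univ _
  · intro t _
    rw [mem_range]
    exact ZMod.val_lt t
  · intro t ht
    rw [mem_range] at ht
    exact ZMod.val_cast_of_lt ht
  · intro t _
    exact ZMod.natCast_zmod_val t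
  · intro t ht
    rw [mem_range] at ht
    rw [ZMod.val_cast_of_lt ht]

/-- the convolution inequality -/
lemma conv_le (M : ℕ) [NeZero M] (F : ZMod M → ℝ) (hF : ∀ t, 0 ≤ F t) (r : ZMod M → ℝ) (X η : ℝ) (hX : 0 ≤ X)
    (hr : ∀ d, r d ≤ X) (S : Finset (ZMod M)) (hS : ∀ d, d ∉ S → r d ≤ η) (hη : 0 ≤ η) :
    ∑ t, ∑ t', F t * F t' * r (t - t') ≤ η * (∑ t, F t) ^ 2 + S.card * (X * ∑ t, F t ^ 2) := by
  classical
  have h1 : ∀ d, r d ≤ η + if d ∈ S then X else 0 := by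
    intro d
    by_cases h : d ∈ S
    · rw [if_pos h]
      have := hr d
      linarith
    · rw [if_neg h]
      have := hS d h
      linarith
  have h2 : ∑ t, ∑ t', F t * F t' * r (t - t') ≤ ∑ t, ∑ t', (η * (F t * F t') +
      F t * F t' * (if t - t' ∈ S then X else 0)) := by
    apply sum_le_sum
    intro t _
    apply sum_le_sum
    intro t' _
    have h3 := mul_le_mul_of_nonneg_left (h1 (t - t')) (mul_nonneg (hF t) (hF t'))
    linarith
  refine h2.trans ?_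
  have h3 : ∑ t, ∑ t', (η * (F t * F t') + F t * F t' * (if t - t' ∈ S then X else 0)) =
      η * (∑ t, F t) ^ 2 + ∑ t', ∑ t, F t * F t' * (if t - t' ∈ S then X else 0) := by
    simp only [sum_add_distrib]
    congr 1
    · rw [pow_two, sum_mul_sum, mul_sum]
      apply sum_congr rfl
      intro t _
      rw [mul_sum]
    · rw [sum_comm]
  rw [h3]
  apply add_le_add le_rfl
  have h4 : ∀ t', ∑ t, F t * F t' * (if t - t' ∈ S then X else 0) = ∑ d ∈ S, F (d + t') * F t' * X := by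
    intro t'
    rw [← Equiv.sum_comp (Equiv.addRight t') (fun t => F t * F t' * (if t - t' ∈ S then X else 0))]
    simp only [Equiv.coe_addRight, add_sub_cancel_right]
    have : ∀ d, F (d + t') * F t' * (if d ∈ S then X else 0) = if d ∈ S then F (d + t') * F t' * X else 0 := by
      intro d
      split_ifs <;> simp
    simp only [this]
    rw [sum_ite_mem, univ_inter]
  simp only [h4]
  rw [sum_comm]
  have h5 : ∀ d ∈ S, ∑ t', F (d + t') * F t' * X ≤ X * ∑ t, F t ^ 2 := by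
    intro d _
    have h6 : ∀ t', F (d + t') * F t' * X ≤ X * ((F (d + t') ^ 2 + F t' ^ 2) / 2) := by
      intro t'
      have : F (d + t') * F t' ≤ (F (d + t') ^ 2 + F t' ^ 2) / 2 := by nlinarith [sq_nonneg (F (d + t') - F t')]
      have := mul_le_mul_of_nonneg_left this hX
      linarith
    refine (sum_le_sum fun t' _ => h6 t').trans (le_of_eq ?_)
    rw [← mul_sum, ← sum_div, sum_add_distrib]
    have h7 : ∑ t', F (d + t') ^ 2 = ∑ t, F t ^ 2 :=
      Equiv.sum_comp (Equiv.addLeft d) (fun t => F t ^ 2)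
    rw [h7]
    ring
  refine (sum_le_sum h5).trans (le_of_eq ?_)
  rw [sum_const, nsmul_eq_mul]

lemma ee_per (M : ℕ) (hM : 1 ≤ M) (v k j : ℤ) (h : (M : ℤ) ∣ k - j) : ee ((k : ℝ) * ((v : ℝ) / M)) = ee ((j : ℝ) * ((v : ℝ) / M)) := by
  obtain ⟨c, hc⟩ := h
  have hM0 : (0 : ℝ) < M := by exact_mod_cast hM
  have e : (k : ℝ) * ((v : ℝ) / M) = (j : ℝ) * ((v : ℝ) / M) + ((c * v : ℤ) : ℝ) := by
    have h1 : (k : ℝ) = j + M * c := by
      have : k = j + M * c := by linarith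
      rw [this]; push_cast; ring
    rw [h1]
    push_cast
    field_simp
  rw [e, ee_add_int]

set_option maxHeartbeats 4000000 in
theorem core (A H x M : ℕ) (hM1 : 1 ≤ M) (hAH : A + H ≤ M) (f G : ℕ → ℂ) (s : ℕ → ℤ) (η δ W V : ℝ)
    (hη : 0 ≤ η)
    (hf : ∀ α : ℝ, ‖∑ n ∈ Icc 1 H, f n * ee ((n : ℝ) * α)‖ ≤ δ)
    (hW : ∑ n ∈ Icc 1 H, ‖f n‖ ^ 2 ≤ W) (hV : ∑ a ∈ Icc 1 A, ‖G a‖ ^ 2 ≤ V) :
    ∑ m ∈ Icc 1 x, ‖∑ a ∈ Icc 1 A, G a * fz f H (a + s m)‖ ^ 2 ≤
      η * x * W * V + (spec M x s η).card * x * δ ^ 2 * V / M := by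
  classical
  have : NeZero M := ⟨by omega⟩
  have hM0 : (0 : ℝ) < M := by exact_mod_cast hM1
  have hδ : 0 ≤ δ := (norm_nonneg _).trans (hf 0)
  have hW0 : 0 ≤ W := (sum_nonneg fun _ _ => by positivity).trans hW
  have hV0 : 0 ≤ V := (sum_nonneg fun _ _ => by positivity).trans hV
  obtain ⟨fh, hfh⟩ : ∃ fh : ℕ → ℂ, fh = fun t : ℕ => ∑ n ∈ Icc 1 H, f n * ee ((t : ℝ) * ((((-1 : ℤ) * n : ℤ) : ℝ) / M)) := ⟨_, rfl⟩
  obtain ⟨Gh, hGh⟩ : ∃ Gh : ℕ → ℂ, Gh = fun t : ℕ => ∑ a ∈ Icc 1 A, G a * ee ((t : ℝ) * ((((1 : ℤ) * a : ℤ) : ℝ) / M)) := ⟨_, rfl⟩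
  -- the periodic version
  obtain ⟨P, hP⟩ : ∃ P : ℕ → ℂ, P = fun t => fh t * Gh t := ⟨_, rfl⟩
  have hper : ∀ v : ℤ, ∑ t ∈ range M, P t * ee ((t : ℝ) * ((v : ℝ) / M)) =
      M * ∑ a ∈ Icc 1 A, ∑ n ∈ Icc 1 H, if (M : ℤ) ∣ (a : ℤ) + v - n then G a * f n else 0 := by
    intro v
    have h1 : ∀ t ∈ range M, P t * ee ((t : ℝ) * ((v : ℝ) / M)) = ∑ a ∈ Icc 1 A, ∑ n ∈ Icc 1 H,
        G a * f n * ee ((t : ℝ) * ((((a : ℤ) + v - n : ℤ) : ℝ) / M)) := by
      intro t _
      rw [hP, hfh, hGh]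
      simp only
      rw [mul_comm (∑ n ∈ Icc 1 H, _) (∑ a ∈ Icc 1 A, _), sum_mul_sum, sum_mul]
      apply sum_congr rfl
      intro a _
      rw [sum_mul]
      apply sum_congr rfl
      intro n _
      have h2 : ee ((t : ℝ) * ((((a : ℤ) + v - n : ℤ) : ℝ) / M)) =
          ee ((t : ℝ) * ((((1 : ℤ) * a : ℤ) : ℝ) / M)) * ee ((t : ℝ) * ((((-1 : ℤ) * n : ℤ) : ℝ) / M)) * ee ((t : ℝ) * ((v : ℝ) / M)) := by
        rw [← ee_add, ← ee_add]
        congr 1
        push_cast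
        ring
      rw [h2]
      ring
    rw [sum_congr rfl h1, sum_comm, mul_sum]
    apply sum_congr rfl
    intro a _
    rw [sum_comm, mul_sum]
    apply sum_congr rfl
    intro n _
    rw [← mul_sum, orth M hM1]
    split_ifs <;> ring
  -- comparison
  have hcomp : ∀ v : ℤ, ‖∑ a ∈ Icc 1 A, G a * fz f H (a + v)‖ ≤ ‖∑ t ∈ range M, P t * ee ((t : ℝ) * ((v : ℝ) / M))‖ / M := by
    intro v
    have hT : ∑ a ∈ Icc 1 A, G a * fz f H (a + v) = ∑ a ∈ Icc 1 A, ∑ n ∈ Icc 1 H, if (n : ℤ) = a + v then G a * f n else 0 := by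
      apply sum_congr rfl
      intro a _
      unfold fz
      by_cases h3 : 1 ≤ (a : ℤ) + v ∧ (a : ℤ) + v ≤ H
      · rw [if_pos h3, sum_eq_single ((a : ℤ) + v).toNat]
        · rw [if_pos (by rw [Int.toNat_of_nonneg (by omega)])]
        · intro n _ hne
          rw [if_neg]
          intro h4
          apply hne
          omega
        · intro h4
          exfalso
          apply h4
          rw [mem_Icc]
          omega
      · rw [if_neg h3, mul_zero]
        symm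
        apply sum_eq_zero
        intro n hn
        rw [mem_Icc] at hn
        rw [if_neg]
        omega
    by_cases hex : ∃ a ∈ Icc 1 A, ∃ n ∈ Icc 1 H, (n : ℤ) = a + v
    · obtain ⟨a0, ha0, n0, hn0, h0⟩ := hex
      rw [hper v, norm_mul, Complex.norm_natCast, mul_div_cancel_left₀ _ hM0.ne', hT]
      apply le_of_eq
      congr 1
      apply sum_congr rfl
      intro a ha
      apply sum_congr rfl
      intro n hn
      rw [mem_Icc] at ha0 hn0 ha hn
      by_cases h : (n : ℤ) = a + v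
      · rw [if_pos h, if_pos]
        rw [show (a : ℤ) + v - n = 0 by omega]
        exact dvd_zero _
      · rw [if_neg h, if_neg]
        intro hd
        apply h
        have h1 : |(a : ℤ) + v - n| < M := by
          rw [abs_lt]
          constructor <;> omega
        have := Int.eq_zero_of_abs_lt_dvd hd h1
        omega
    · have h0 : ∑ a ∈ Icc 1 A, G a * fz f H (a + v) = 0 := by
        rw [hT]
        apply sum_eq_zero
        intro a ha
        apply sum_eq_zero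
        intro n hn
        rw [if_neg]
        intro h
        exact hex ⟨a, ha, n, hn, h⟩
      rw [h0, norm_zero]
      positivity
  -- expansion of the square
  obtain ⟨R, hR⟩ : ∃ R : ℤ → ℂ, R = fun k : ℤ => ∑ m ∈ Icc 1 x, ee ((k : ℝ) * ((s m : ℝ) / M)) := ⟨_, rfl⟩
  have hRx : ∀ k, ‖R k‖ ≤ x := by
    intro k
    rw [hR]
    refine (norm_sum_le _ _).trans ?_
    have : ∀ m ∈ Icc 1 x, ‖ee ((k : ℝ) * ((s m : ℝ) / M))‖ ≤ 1 := by
      intro m _
      rw [norm_ee]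
    refine (sum_le_sum this).trans ?_
    rw [sum_const, Nat.card_Icc, nsmul_eq_mul]
    simp
  have hRper : ∀ k j : ℤ, (M : ℤ) ∣ k - j → R k = R j := by
    intro k j h
    rw [hR]
    apply sum_congr rfl
    intro m _
    exact ee_per M hM1 _ _ _ h
  have hsq : (((∑ m ∈ Icc 1 x, ‖∑ t ∈ range M, P t * ee ((t : ℝ) * ((s m : ℝ) / M))‖ ^ 2 : ℝ)) : ℂ) =
      ∑ t ∈ range M, ∑ t' ∈ range M, P t * (starRingEnd ℂ) (P t') * R ((t : ℤ) - t') := by
    push_cast
    have h1 : ∀ m ∈ Icc 1 x, (‖∑ t ∈ range M, P t * ee ((t : ℝ) * ((s m : ℝ) / M))‖ : ℂ) ^ 2 =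
        ∑ t ∈ range M, ∑ t' ∈ range M, P t * (starRingEnd ℂ) (P t') * ee ((((t : ℤ) - t' : ℤ) : ℝ) * ((s m : ℝ) / M)) := by
      intro m _
      rw [← Complex.mul_conj', map_sum, sum_mul_sum]
      apply sum_congr rfl
      intro t _
      apply sum_congr rfl
      intro t' _
      rw [map_mul, conj_ee]
      have h2 : ee ((((t : ℤ) - t' : ℤ) : ℝ) * ((s m : ℝ) / M)) = ee ((t : ℝ) * ((s m : ℝ) / M)) * ee (-((t' : ℝ) * ((s m : ℝ) / M))) := by
        rw [← ee_add]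
        congr 1
        push_cast
        ring
      rw [h2]
      ring
    rw [sum_congr rfl h1, sum_comm]
    apply sum_congr rfl
    intro t _
    rw [sum_comm]
    apply sum_congr rfl
    intro t' _
    rw [← mul_sum, hR]
  have hsq2 : ∑ m ∈ Icc 1 x, ‖∑ t ∈ range M, P t * ee ((t : ℝ) * ((s m : ℝ) / M))‖ ^ 2 ≤
      ∑ t ∈ range M, ∑ t' ∈ range M, ‖P t‖ * ‖P t'‖ * ‖R ((t : ℤ) - t')‖ := by
    have h1 : ∑ m ∈ Icc 1 x, ‖∑ t ∈ range M, P t * ee ((t : ℝ) * ((s m : ℝ) / M))‖ ^ 2 =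
        ‖∑ t ∈ range M, ∑ t' ∈ range M, P t * (starRingEnd ℂ) (P t') * R ((t : ℤ) - t')‖ := by
      rw [← hsq, Complex.norm_real, Real.norm_of_nonneg (sum_nonneg fun _ _ => by positivity)]
    rw [h1]
    refine (norm_sum_le _ _).trans (sum_le_sum fun t _ => ?_)
    refine (norm_sum_le _ _).trans (sum_le_sum fun t' _ => ?_)
    rw [norm_mul, norm_mul, RCLike.norm_conj]
  -- passage to the residues modulo M
  have hz : ∑ t ∈ range M, ∑ t' ∈ range M, ‖P t‖ * ‖P t'‖ * ‖R ((t : ℤ) - t')‖ =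
      ∑ t : ZMod M, ∑ t' : ZMod M, ‖P t.val‖ * ‖P t'.val‖ * ‖R ((t - t').val : ℤ)‖ := by
    rw [← sum_zmod M (fun t => ∑ t' ∈ range M, ‖P t‖ * ‖P t'‖ * ‖R ((t : ℤ) - t')‖)]
    apply sum_congr rfl
    intro t _
    rw [← sum_zmod M (fun t' => ‖P t.val‖ * ‖P t'‖ * ‖R ((t.val : ℤ) - t')‖)]
    apply sum_congr rfl
    intro t' _
    congr 2
    apply hRper
    rw [← ZMod.intCast_eq_intCast_iff_dvd_sub]
    push_cast
    rw [ZMod.natCast_zmod_val, ZMod.natCast_zmod_val, ZMod.natCast_zmod_val]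
  obtain ⟨S, hS⟩ : ∃ S : Finset (ZMod M), S = (spec M x s η).image (fun t : ℕ => (t : ZMod M)) := ⟨_, rfl⟩
  have hScard : S.card ≤ (spec M x s η).card := by rw [hS]; exact card_image_le
  have hconv := conv_le M (fun t => ‖P t.val‖) (fun t => norm_nonneg _) (fun d => ‖R (d.val : ℤ)‖) x (η * x)
    (Nat.cast_nonneg _) (fun d => hRx _) S (by
      intro d hd
      by_contra hcon
      push Not at hcon
      apply hd
      rw [hS, mem_image]
      refine ⟨d.val, ?_, ZMod.natCast_zmod_val d⟩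
      unfold spec
      rw [mem_filter, mem_range]
      refine ⟨ZMod.val_lt d, ?_⟩
      rw [hR] at hcon
      exact_mod_cast hcon) (by positivity)
  -- the norms
  have hF1 : (∑ t : ZMod M, ‖P t.val‖) ^ 2 ≤ (M : ℝ) ^ 2 * (W * V) := by
    rw [sum_zmod M (fun t => ‖P t‖)]
    have h1 : ∀ t ∈ range M, ‖P t‖ = ‖fh t‖ * ‖Gh t‖ := by
      intro t _
      rw [hP]
      exact norm_mul _ _
    rw [sum_congr rfl h1]
    have h2 := sum_mul_sq_le_sq_mul_sq (range M) (fun t => ‖fh t‖) (fun t => ‖Gh t‖)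
    have h3 : ∑ t ∈ range M, ‖fh t‖ ^ 2 ≤ M * W := by
      have h3 := parseval_Icc H M hM1 (by omega) f (-1) (Or.inr rfl)
      rw [hfh]
      simp only
      rw [h3]
      exact mul_le_mul_of_nonneg_left hW hM0.le
    have h4 : ∑ t ∈ range M, ‖Gh t‖ ^ 2 ≤ M * V := by
      have h4 := parseval_Icc A M hM1 (by omega) G 1 (Or.inl rfl)
      rw [hGh]
      simp only
      rw [h4]
      exact mul_le_mul_of_nonneg_left hV hM0.le
    refine h2.trans ((mul_le_mul h3 h4 (sum_nonneg fun _ _ => by positivity) (by positivity)).trans (le_of_eq ?_))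
    ring
  have hF2 : ∑ t : ZMod M, ‖P t.val‖ ^ 2 ≤ δ ^ 2 * (M * V) := by
    rw [sum_zmod M (fun t => ‖P t‖ ^ 2)]
    have h1 : ∀ t ∈ range M, ‖P t‖ ^ 2 ≤ δ ^ 2 * ‖Gh t‖ ^ 2 := by
      intro t _
      rw [hP]
      simp only
      rw [norm_mul, mul_pow]
      apply mul_le_mul_of_nonneg_right _ (by positivity)
      apply pow_le_pow_left₀ (norm_nonneg _)
      have h1 : fh t = ∑ n ∈ Icc 1 H, f n * ee ((n : ℝ) * (-(t : ℝ) / M)) := by
        rw [hfh]
        apply sum_congr rfl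
        intro n _
        congr 2
        push_cast
        ring
      rw [h1]
      exact hf _
    refine (sum_le_sum h1).trans ?_
    rw [← mul_sum]
    apply mul_le_mul_of_nonneg_left _ (by positivity)
    have h4 := parseval_Icc A M hM1 (by omega) G 1 (Or.inl rfl)
    rw [hGh]
    simp only
    rw [h4]
    exact mul_le_mul_of_nonneg_left hV hM0.le
  -- conclusion
  have hx0 : (0 : ℝ) ≤ x := Nat.cast_nonneg _
  have hfin : ∑ m ∈ Icc 1 x, ‖∑ t ∈ range M, P t * ee ((t : ℝ) * ((s m : ℝ) / M))‖ ^ 2 ≤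
      η * x * ((M : ℝ) ^ 2 * (W * V)) + (spec M x s η).card * (x * (δ ^ 2 * (M * V))) := by
    refine hsq2.trans ?_
    rw [hz]
    refine hconv.trans ?_
    apply add_le_add
    · exact mul_le_mul_of_nonneg_left hF1 (by positivity)
    · apply mul_le_mul (by exact_mod_cast hScard) _ _ (Nat.cast_nonneg _)
      · exact mul_le_mul_of_nonneg_left hF2 hx0
      · exact mul_nonneg hx0 (sum_nonneg fun _ _ => by positivity)
  calc ∑ m ∈ Icc 1 x, ‖∑ a ∈ Icc 1 A, G a * fz f H (a + s m)‖ ^ 2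
      ≤ ∑ m ∈ Icc 1 x, (‖∑ t ∈ range M, P t * ee ((t : ℝ) * ((s m : ℝ) / M))‖ / M) ^ 2 :=
        sum_le_sum fun m _ => pow_le_pow_left₀ (norm_nonneg _) (hcomp _) _
    _ = (∑ m ∈ Icc 1 x, ‖∑ t ∈ range M, P t * ee ((t : ℝ) * ((s m : ℝ) / M))‖ ^ 2) / (M : ℝ) ^ 2 := by
        rw [sum_div]
        exact sum_congr rfl fun m _ => div_pow _ _ _
    _ ≤ (η * x * ((M : ℝ) ^ 2 * (W * V)) + (spec M x s η).card * (x * (δ ^ 2 * (M * V)))) / (M : ℝ) ^ 2 :=
        div_le_div_of_nonneg_right hfin (by positivity)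
    _ = _ := by
        field_simp

end Pool.Agent.K1H51.LD
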