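import Pool.Agent.K1H51.LD.Fin

set_option autoImplicit false

/-! The fractions `u / p` modulo a prime with `u`, `p` bounded by powers of the logarithm. -/

namespace Pool.Agent.K1H51.LD

open Finset
open Pool.Agent.H373R2.T7
open Pool.Agent.H807R2.Dav

set_option maxHeartbeats 4000000 in
theorem frac_param (B U1 : ℕ) (hU1 : 1 ≤ U1) : ∃ C N₀ : ℕ, ∀ N : ℕ, N₀ ≤ N → ∀ M : ℕ, M.Prime → (6 * B + 8) * N ≤ M →
    M ≤ (12 * B + 16) * N → ∀ c : ℤ,
    (∀ t : ℕ, 0 < t → t < M → ‖∑ i ∈ pairs ⌊Real.log N ^ C⌋₊ ⌊Real.log N ^ (2 * C)⌋₊, ee ((t : ℝ) * ((frac M c i : ℝ) / M))‖ ≤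
      (1 / Real.log N ^ U1) * (pairs ⌊Real.log N ^ C⌋₊ ⌊Real.log N ^ (2 * C)⌋₊).card) ∧
    ((pairs ⌊Real.log N ^ C⌋₊ ⌊Real.log N ^ (2 * C)⌋₊).card : ℝ) / (100 * (B + 1)) ≤
      (((pairs ⌊Real.log N ^ C⌋₊ ⌊Real.log N ^ (2 * C)⌋₊).filter (fun i => 1 ≤ frac M c i ∧ frac M c i ≤ N)).card : ℝ) := by
  obtain ⟨C, hC⟩ : ∃ C, C = U1 + 4 := ⟨_, rfl⟩
  obtain ⟨n1, h1⟩ := primes_many C (by omega)
  obtain ⟨R, hR⟩ := exists_nat_ge (100 * ((B : ℝ) + 1) + Real.log ((12 * B + 16 : ℕ) : ℝ) + 10)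
  obtain ⟨n2, h2⟩ := ev_L' R
  obtain ⟨n3, h3⟩ := ev_log' C 8
  refine ⟨C, n1 + n2 + n3 + 4, fun N hN M hMp hM1 hM2 c => ?_⟩
  have h1 := h1 N (by omega)
  have h2 := h2 N (by omega)
  have h3 := h3 N (by omega)
  have hN4 : (4 : ℝ) ≤ N := by exact_mod_cast (by omega : 4 ≤ N)
  have hN0 : (0 : ℝ) < N := by linarith
  obtain ⟨L, hL⟩ : ∃ L, L = Real.log (N : ℝ) := ⟨_, rfl⟩
  rw [← hL] at h1 h2 h3 ⊢
  have hB0 : (0 : ℝ) ≤ B := Nat.cast_nonneg _
  have hlog0 : 0 ≤ Real.log ((12 * B + 16 : ℕ) : ℝ) := Real.log_natCast_nonneg _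
  have hLbig : 100 * ((B : ℝ) + 1) + Real.log ((12 * B + 16 : ℕ) : ℝ) + 10 ≤ L := hR.trans h2
  have hL10 : 10 ≤ L := by nlinarith
  have hL0 : 0 < L := by linarith
  have hL1 : 1 ≤ L := by linarith
  obtain ⟨P, hP⟩ : ∃ P, P = ⌊L ^ C⌋₊ := ⟨_, rfl⟩
  obtain ⟨S, hS⟩ : ∃ S, S = ⌊L ^ (2 * C)⌋₊ := ⟨_, rfl⟩
  rw [← hP] at h1 ⊢
  rw [← hS]
  obtain ⟨pi, hpi⟩ : ∃ pi : ℝ, pi = (((Icc 1 P).filter Nat.Prime).card : ℝ) := ⟨_, rfl⟩
  rw [← hpi] at h1
  have hP1 : (P : ℝ) ≤ L ^ C := by rw [hP]; exact Nat.floor_le (by positivity)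
  have hS2 : L ^ (2 * C) < S + 1 := by rw [hS]; exact Nat.lt_floor_add_one _
  have hLC1 : 1 ≤ L ^ (2 * C) := one_le_pow₀ hL1
  have hLC2 : 2 ≤ L ^ (2 * C) := by
    calc (2 : ℝ) ≤ L := by linarith
      _ = L ^ 1 := (pow_one L).symm
      _ ≤ L ^ (2 * C) := pow_le_pow_right₀ hL1 (by omega)
  have hSlow : L ^ (2 * C) / 2 ≤ S := by linarith
  have hS0 : (0 : ℝ) < S := by linarith
  have hcard : ((pairs P S).card : ℝ) = pi * S := by
    unfold pairs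
    rw [card_product, Nat.card_Icc, Nat.add_sub_cancel, hpi]
    push_cast
    ring
  -- sizes
  have hsq : √(N : ℝ) ≤ N := by
    rw [Real.sqrt_le_left hN0.le]
    nlinarith
  have hMge : (N : ℝ) ≤ M := by
    have : N ≤ (6 * B + 8) * N := Nat.le_mul_of_pos_left _ (by omega)
    exact_mod_cast this.trans hM1
  have hPM : 6 * P < M := by
    have : (6 * P : ℝ) < M := by
      have h4 : 8 * (P : ℝ) ≤ N := by
        calc 8 * (P : ℝ) ≤ 8 * L ^ C := by linarith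
          _ ≤ √(N : ℝ) := h3
          _ ≤ N := hsq
      have h5 : (0 : ℝ) ≤ P := Nat.cast_nonneg _
      linarith
    exact_mod_cast this
  have hM0 : (0 : ℝ) < M := by linarith
  have hlogM : Real.log M ≤ 2 * L := by
    have h4 : (M : ℝ) ≤ ((12 * B + 16 : ℕ) : ℝ) * N := by exact_mod_cast hM2
    have h5 := Real.log_le_log hM0 h4
    rw [Real.log_mul (by positivity) hN0.ne', ← hL] at h5
    nlinarith
  have hlog2 : (Nat.log 2 M : ℝ) ≤ 3 * L := by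
    have h4 : (2 : ℝ) ^ (Nat.log 2 M) ≤ M := by
      exact_mod_cast Nat.pow_log_le_self 2 hMp.ne_zero
    have h5 := Real.log_le_log (by positivity) h4
    rw [Real.log_pow] at h5
    have h6 := Real.log_two_gt_d9
    have h7 : (0 : ℝ) ≤ Nat.log 2 M := Nat.cast_nonneg _
    nlinarith
  have hpi0 : 0 ≤ pi := by rw [hpi]; exact Nat.cast_nonneg _
  have hLU : 0 < L ^ U1 := by positivity
  have hLCe : L ^ C = L ^ U1 * L ^ 4 := by rw [hC, pow_add]
  have hpi1 : 12 * L * L ^ U1 ≤ pi := by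
    rw [hLCe] at h1
    have h4 : L ^ U1 * L ^ 4 = (L ^ U1 * L ^ 3) * L := by ring
    rw [h4] at h1
    have h5 : L ^ U1 * L ^ 3 ≤ 8 * pi := by
      have : (L ^ U1 * L ^ 3) * L ≤ (8 * pi) * L := by linarith
      exact le_of_mul_le_mul_right this hL0
    have h6 : 96 * L ≤ L ^ 3 := by
      have h7 : 96 ≤ L ^ 2 := by nlinarith
      calc 96 * L ≤ L ^ 2 * L := mul_le_mul_of_nonneg_right h7 hL0.le
        _ = L ^ 3 := by ring
    have h8 := mul_le_mul_of_nonneg_left h6 hLU.le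
    linarith
  have hSP : 2 * L ^ U1 * P ≤ S := by
    have h4 : 2 * L ^ U1 * P ≤ 2 * L ^ U1 * L ^ C := mul_le_mul_of_nonneg_left hP1 (by positivity)
    have h5 : 2 * L ^ U1 * L ^ C ≤ L ^ (2 * C) / 2 := by
      have h6 : L ^ (2 * C) = L ^ C * L ^ C := by rw [two_mul, pow_add]
      have h7 : 4 * L ^ U1 ≤ L ^ C := by
        rw [hLCe]
        have : (4 : ℝ) ≤ L ^ 4 := by
          calc (4 : ℝ) ≤ L := by linarith
            _ = L ^ 1 := (pow_one L).symm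
            _ ≤ L ^ 4 := pow_le_pow_right₀ hL1 (by norm_num)
        nlinarith
      rw [h6]
      have h8 : 0 < L ^ C := by positivity
      nlinarith
    linarith
  have hη : ∀ t : ℕ, 0 < t → t < M → ‖∑ i ∈ pairs P S, ee ((t : ℝ) * ((frac M c i : ℝ) / M))‖ ≤
      (1 / L ^ U1) * (pairs P S).card := by
    intro t ht0 htM
    refine (frac_sum M P S hMp hPM c t ht0 htM).trans ?_
    rw [hcard, ← hpi]
    have e1 : 2 * (Nat.log 2 M : ℝ) * S ≤ (1 / L ^ U1) * (pi * S) / 2 := by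
      have h4 : 2 * (Nat.log 2 M : ℝ) ≤ 6 * L := by linarith
      have h5 : 6 * L ≤ (1 / L ^ U1) * pi / 2 := by
        rw [one_div, inv_mul_eq_div, div_div, le_div_iff₀ (by positivity)]
        linarith
      calc 2 * (Nat.log 2 M : ℝ) * S ≤ (1 / L ^ U1) * pi / 2 * S := mul_le_mul_of_nonneg_right (h4.trans h5) hS0.le
        _ = _ := by ring
    have e2 : pi * P ≤ (1 / L ^ U1) * (pi * S) / 2 := by
      have h5 : (P : ℝ) ≤ (1 / L ^ U1) * S / 2 := by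
        rw [one_div, inv_mul_eq_div, div_div, le_div_iff₀ (by positivity)]
        linarith
      calc pi * P ≤ pi * ((1 / L ^ U1) * S / 2) := mul_le_mul_of_nonneg_left h5 hpi0
        _ = _ := by ring
    linarith
  refine ⟨hη, ?_⟩
  -- the members in the interval
  have hh1 : 1 ≤ N / 2 := by omega
  have hh2 : 2 * (N / 2) < M := by
    have : 2 * (N / 2) ≤ N := by omega
    have h4 : (8 : ℕ) * N ≤ (6 * B + 8) * N := Nat.mul_le_mul_right _ (by omega)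
    omega
  have hcount := count_interval (pairs P S) (frac M c) M (N / 2) hMp.one_lt.le hh1 hh2 (by
    intro i _
    unfold frac
    have hM0' : (0 : ℤ) < M := by exact_mod_cast hMp.pos
    exact ⟨Int.emod_nonneg _ hM0'.ne', Int.emod_lt_of_pos _ hM0'⟩) (1 / L ^ U1) (by positivity) hη
  have hsub : (((pairs P S).filter (fun i => 1 ≤ frac M c i ∧ frac M c i ≤ 2 * ((N / 2 : ℕ) : ℤ))).card : ℝ) ≤
      (((pairs P S).filter (fun i => 1 ≤ frac M c i ∧ frac M c i ≤ N)).card : ℝ) := by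
    apply Nat.cast_le.2
    apply card_le_card
    intro i hi
    rw [mem_filter] at hi ⊢
    refine ⟨hi.1, hi.2.1, ?_⟩
    have := hi.2.2
    omega
  refine le_trans ?_ (hcount.trans hsub)
  rw [div_eq_mul_inv]
  apply mul_le_mul_of_nonneg_left _ (Nat.cast_nonneg _)
  have hhr : (N : ℝ) / 3 ≤ ((N / 2 : ℕ) : ℝ) := by
    have h4 : N ≤ 2 * (N / 2) + 1 := by omega
    have h5 : (N : ℝ) ≤ 2 * ((N / 2 : ℕ) : ℝ) + 1 := by exact_mod_cast h4
    linarith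
  have hMup : (M : ℝ) ≤ (12 * B + 16) * N := by exact_mod_cast hM2
  have e1 : 1 / (36 * (B : ℝ) + 48) ≤ ((N / 2 : ℕ) : ℝ) / M := by
    rw [div_le_div_iff₀ (by positivity) hM0]
    nlinarith
  have e2 : 1 / L ^ U1 ≤ 1 / (100 * ((B : ℝ) + 1)) := by
    apply one_div_le_one_div_of_le (by positivity)
    calc 100 * ((B : ℝ) + 1) ≤ L := by linarith
      _ = L ^ 1 := (pow_one L).symm
      _ ≤ L ^ U1 := pow_le_pow_right₀ hL1 hU1
  have e3 : (100 * ((B : ℝ) + 1))⁻¹ + 1 / (100 * ((B : ℝ) + 1)) ≤ 1 / (36 * (B : ℝ) + 48) := by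
    rw [← one_div, ← add_div, div_le_div_iff₀ (by positivity) (by positivity)]
    nlinarith
  linarith

end Pool.Agent.K1H51.LD
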