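import Pool.Agent.TH646.LV.Fam2
import Pool.Agent.K1H51.LD.Sup

set_option autoImplicit false

/-! The difference between the von Mangoldt function and its model on both sides of the members of a
family (following the starting file `Pool.Agent.TH646.LV.Fam2`). -/

namespace Pool.Agent.K1H51.LD

open Finset
open Pool.Agent.H373R2.T7
open Pool.Agent.H807R2.Dav
open Pool.Agent.W93.AU (dI)
open Pool.Agent.TH935.LF (lam_f fa fa_sup)
open Pool.Agent.TH646.LV (dI_toNat dI_neg fa_one rev rev_sum)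

set_option maxHeartbeats 4000000 in
theorem gen_two (B T U U' : ℕ) : ∃ B0 : ℕ, ∀ E : ℕ, ∃ N₀ : ℕ, ∀ N : ℕ, N₀ ≤ N →
    ∀ (x : ℕ) (s : ℕ → ℤ), Mom (2 * B + 2) N x (2 * T + 3 * U + 9) U' s →
    Mom (2 * B + 2) N x (2 * T + 3 * U + 9) U' (fun m => (((B + 1) * N + 1 : ℕ) : ℤ) - s m) →
    ∀ z : ℕ, Real.log N ^ B0 ≤ z → (z : ℝ) ≤ Real.log N ^ E →
    ∀ G : ℕ → ℝ, (∀ n, |G n| ≤ Real.log N ^ T) →
    ∀ S : Finset ℕ, S ⊆ Icc 1 x → (∀ m ∈ S, |s m| ≤ B * N) → (∀ m ∈ S,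
      (∃ N' : ℕ, N' ≤ B * N ∧ N / Real.log N ^ U < |∑ n ∈ Icc 1 N', G n * dI z ((n : ℤ) + s m)|) ∨
      (∃ N' : ℕ, (N' : ℤ) < s m ∧ N / Real.log N ^ U < |∑ n ∈ Icc 1 N', G n * dI z (s m - (n : ℤ))|)) →
    (S.card : ℝ) ≤ x / Real.log N ^ U := by
  obtain ⟨B', hB'⟩ : ∃ B', B' = 2 * B + 2 := ⟨_, rfl⟩
  obtain ⟨n1, h1⟩ := gen_sup B' T (U + 1)
  obtain ⟨B1, hB1⟩ := fa_sup 0 U'
  refine ⟨B1 + 1, fun E => ?_⟩
  obtain ⟨n2, h2⟩ := hB1 E
  obtain ⟨n3, h3⟩ := Vz_inv_small E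
  obtain ⟨n4, h4⟩ := ev_L' (2 ^ B1 + Real.log ((2 * (B' + 1) : ℕ) : ℝ) + 4)
  refine ⟨n1 + n2 + n3 + n4 + 3, fun N hN x s hMom1 hMom2 z hz1 hz2 G hG S hSx hs hS => ?_⟩
  rw [← hB', show 2 * T + 3 * U + 9 = 2 * T + 3 * (U + 1) + 6 by omega] at hMom1 hMom2
  classical
  have hN3 : 3 ≤ N := by omega
  have hN0 : (0 : ℝ) < N := by exact_mod_cast (by omega : 0 < N)
  have c1 := h1 N (by omega)
  have hV := h3 N (by omega)
  have hL' := h4 N (by omega)
  obtain ⟨L, hL⟩ : ∃ L, L = Real.log (N : ℝ) := ⟨_, rfl⟩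
  obtain ⟨H, hH⟩ : ∃ H, H = 2 * ((B' + 1) * N) := ⟨_, rfl⟩
  have hlogc : 0 ≤ Real.log ((2 * (B' + 1) : ℕ) : ℝ) := Real.log_natCast_nonneg _
  have hp2 : (0 : ℝ) < 2 ^ B1 := by positivity
  rw [← hL] at hL' hV hz1 hz2 hG
  have hL4 : 4 ≤ L := by linarith
  have hL1 : 1 ≤ L := by linarith
  have hL0 : 0 < L := by linarith
  have hzge : 1 ≤ z := by
    have : (1 : ℝ) ≤ z := (one_le_pow₀ hL1).trans hz1
    exact_mod_cast this
  have hVz := hV z hzge hz2
  have hVz0 := Vz_pos z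
  -- logarithms of comparable numbers
  have hlog : ∀ M : ℕ, N ≤ M → M ≤ H → L ≤ Real.log (M : ℝ) ∧ Real.log (M : ℝ) ≤ 2 * L := by
    intro M hM1 hM2
    have hM0 : (0 : ℝ) < M := by exact_mod_cast (by omega : 0 < M)
    refine ⟨?_, ?_⟩
    · rw [hL]
      exact Real.log_le_log hN0 (by exact_mod_cast hM1)
    · have e1 : Real.log (M : ℝ) ≤ Real.log (H : ℝ) := Real.log_le_log hM0 (by exact_mod_cast hM2)
      have e2 : (H : ℝ) = ((2 * (B' + 1) : ℕ) : ℝ) * N := by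
        rw [hH]
        push_cast
        ring
      have e3 : Real.log (H : ℝ) = Real.log ((2 * (B' + 1) : ℕ) : ℝ) + L := by
        rw [e2, Real.log_mul (by positivity) hN0.ne', ← hL]
      linarith
  -- exponential sums
  have hsum : ∀ M : ℕ, N ≤ M → M ≤ H → ∀ α : ℝ, ‖∑ n ∈ Icc 1 M, fa z 1 n * ee ((n : ℝ) * α)‖ ≤ H / L ^ U' := by
    intro M hM1 hM2 α
    obtain ⟨l1, l2⟩ := hlog M hM1 hM2
    have q := h2 M (by omega) z (by
      calc Real.log (M : ℝ) ^ B1 ≤ (2 * L) ^ B1 := pow_le_pow_left₀ (by linarith) l2 _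
        _ = 2 ^ B1 * L ^ B1 := mul_pow _ _ _
        _ ≤ L * L ^ B1 := mul_le_mul_of_nonneg_right (by linarith) (by positivity)
        _ = L ^ (B1 + 1) := by rw [pow_succ]; ring
        _ ≤ z := hz1) (hz2.trans (pow_le_pow_left₀ hL0.le l1 _)) 1 le_rfl (by simp) α
    refine q.trans ?_
    calc (M : ℝ) / Real.log (M : ℝ) ^ U' ≤ (M : ℝ) / L ^ U' := by
          apply div_le_div_of_nonneg_left (Nat.cast_nonneg _) (by positivity)
          exact pow_le_pow_left₀ hL0.le l1 _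
      _ ≤ H / L ^ U' := by
          apply div_le_div_of_nonneg_right _ (by positivity)
          exact_mod_cast hM2
  have hNH : N ≤ H := by
    rw [hH]
    have : N ≤ (B' + 1) * N := Nat.le_mul_of_pos_left _ (by omega)
    omega
  -- values
  have hval : ∀ n : ℕ, 1 ≤ n → n ≤ H → ‖fa z 1 n‖ ≤ 2 * L := by
    intro n hn1 hn2
    rw [fa_one, Complex.norm_real, Real.norm_eq_abs]
    have e1 : (0 : ℝ) ≤ ArithmeticFunction.vonMangoldt n := ArithmeticFunction.vonMangoldt_nonneg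
    have e2 : ArithmeticFunction.vonMangoldt n ≤ 2 * L := by
      refine ArithmeticFunction.vonMangoldt_le_log.trans ?_
      refine le_trans ?_ (hlog H hNH le_rfl).2
      exact Real.log_le_log (by exact_mod_cast (by omega : 0 < n)) (by exact_mod_cast hn2)
    have e3 : 0 ≤ lamz z n ∧ lamz z n ≤ 2 * L := by
      unfold lamz
      split_ifs
      · exact ⟨(inv_pos.2 hVz0).le, by linarith⟩
      · exact ⟨le_rfl, by linarith⟩
    rw [abs_le]
    constructor <;> linarith [e3.1, e3.2]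
  -- the number `K`
  obtain ⟨K0, hK0⟩ : ∃ K0 : ℕ, K0 = (B + 1) * N := ⟨_, rfl⟩
  have hK0N : N ≤ K0 := by
    rw [hK0]
    exact Nat.le_mul_of_pos_left _ (by omega)
  have hK0H : K0 ≤ H := by
    rw [hH, hK0, hB']
    nlinarith
  rw [← hL, ← hH] at c1
  have hG' : ∀ a, ‖((G a : ℝ) : ℂ)‖ ≤ L ^ T := by
    intro a
    rw [Complex.norm_real]
    exact hG a
  have hBB' : (B : ℤ) * N ≤ B' * N := by
    have : (B : ℤ) ≤ B' := by rw [hB']; push_cast; linarith [(Nat.cast_nonneg B : (0 : ℤ) ≤ B)]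
    exact mul_le_mul_of_nonneg_right this (by positivity)
  have hBB : B * N ≤ B' * N := by exact_mod_cast hBB'
  -- first kind
  have f1 := c1 x s U' hMom1 (fa z 1)
    (fun α => by exact_mod_cast hsum H hNH le_rfl α)
    (fun n hn => by rw [mem_Icc] at hn; exact hval n hn.1 hn.2) (fun a => (G a : ℂ)) hG'
    (S.filter (fun m => ∃ N' : ℕ, N' ≤ B * N ∧ N / L ^ U < |∑ n ∈ Icc 1 N', G n * dI z ((n : ℤ) + s m)|))
    ((filter_subset _ _).trans hSx) (by
    intro m hm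
    rw [mem_filter] at hm
    obtain ⟨hmS, N', hN', hlt⟩ := hm
    refine ⟨N', hN'.trans hBB, ?_⟩
    have e : ∑ a ∈ Icc 1 N', ((G a : ℝ) : ℂ) * fz (fa z 1) H (a + s m) =
        ((∑ n ∈ Icc 1 N', G n * dI z ((n : ℤ) + s m) : ℝ) : ℂ) := by
      push_cast
      apply sum_congr rfl
      intro n hn
      rw [mem_Icc] at hn
      congr 1
      unfold fz
      have b1 := abs_le.1 (hs m hmS)
      have b2 : (n : ℤ) ≤ B * N := by exact_mod_cast hn.2.trans hN'
      have b3 : ((H : ℕ) : ℤ) = 2 * ((B' + 1) * N) := by rw [hH]; push_cast; ring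
      have b4 : (0 : ℤ) ≤ B' * N := by positivity
      by_cases hk : 1 ≤ (n : ℤ) + s m
      · rw [if_pos ⟨hk, by rw [b3]; linarith [b1.2, hBB', (Nat.cast_nonneg N : (0 : ℤ) ≤ N)]⟩, fa_one, dI_toNat z _ hk]
      · rw [if_neg (fun h => hk h.1), dI_neg z _ hk, Complex.ofReal_zero]
    rw [e, Complex.norm_real, Real.norm_eq_abs]
    refine lt_of_le_of_lt ?_ hlt
    apply div_le_div_of_nonneg_left hN0.le (by positivity)
    exact pow_le_pow_right₀ hL1 (by omega))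
  -- second kind
  have f2 := c1 x (fun m => ((K0 + 1 : ℕ) : ℤ) - s m) U' (by rw [hK0]; exact hMom2) (rev z (K0 + 1))
    (fun α => by
      rw [rev_sum z K0 H hK0H α]
      exact_mod_cast hsum K0 hK0N hK0H (-α))
    (fun n hn => by
      rw [mem_Icc] at hn
      unfold rev
      split_ifs with h
      · exact hval _ (by omega) (by omega)
      · rw [norm_zero]; positivity) (fun a => (G a : ℂ)) hG'
    (S.filter (fun m => ∃ N' : ℕ, (N' : ℤ) < s m ∧ N / L ^ U < |∑ n ∈ Icc 1 N', G n * dI z (s m - (n : ℤ))|))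
    ((filter_subset _ _).trans hSx) (by
    intro m hm
    rw [mem_filter] at hm
    obtain ⟨hmS, N', hN', hlt⟩ := hm
    have b1 := abs_le.1 (hs m hmS)
    have hN'B : N' ≤ B * N := by
      have : (N' : ℤ) ≤ B * N := by linarith [b1.2]
      exact_mod_cast this
    refine ⟨N', hN'B.trans hBB, ?_⟩
    have e : ∑ a ∈ Icc 1 N', ((G a : ℝ) : ℂ) * fz (rev z (K0 + 1)) H (a + (((K0 + 1 : ℕ) : ℤ) - s m)) =
        ((∑ n ∈ Icc 1 N', G n * dI z (s m - (n : ℤ)) : ℝ) : ℂ) := by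
      push_cast
      apply sum_congr rfl
      intro n hn
      rw [mem_Icc] at hn
      congr 1
      have b2 : (n : ℤ) ≤ N' := by exact_mod_cast hn.2
      have b5 : ((K0 : ℕ) : ℤ) = (B + 1) * N := by rw [hK0]; push_cast; ring
      have b8 : (0 : ℤ) ≤ (N : ℤ) := by positivity
      have b9 : (1 : ℤ) ≤ n := by exact_mod_cast hn.1
      obtain ⟨t, ht⟩ : ∃ t : ℕ, (t : ℤ) = s m - n := ⟨(s m - n).toNat, Int.toNat_of_nonneg (by linarith)⟩
      have ht1 : 1 ≤ t := by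
        have : (1 : ℤ) ≤ t := by rw [ht]; linarith
        exact_mod_cast this
      have ht2 : t ≤ K0 := by
        have : (t : ℤ) ≤ K0 := by rw [ht, b5]; nlinarith [b1.2]
        exact_mod_cast this
      have e1 : (n : ℤ) + (((K0 : ℕ) : ℤ) + 1 - s m) = ((K0 + 1 - t : ℕ) : ℤ) := by
        rw [Nat.cast_sub (by omega)]
        push_cast
        rw [ht]
        ring
      rw [e1]
      unfold fz
      rw [if_pos ⟨by exact_mod_cast (by omega : 1 ≤ K0 + 1 - t), by exact_mod_cast (by omega : K0 + 1 - t ≤ H)⟩,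
        Int.toNat_natCast]
      unfold rev
      rw [if_pos (by omega), show K0 + 1 - (K0 + 1 - t) = t by omega, fa_one, ← ht,
        dI_toNat z _ (by exact_mod_cast ht1), Int.toNat_natCast]
    rw [e, Complex.norm_real, Real.norm_eq_abs]
    refine lt_of_le_of_lt ?_ hlt
    apply div_le_div_of_nonneg_left hN0.le (by positivity)
    exact pow_le_pow_right₀ hL1 (by omega))
  -- conclusion
  rw [← hL] at hS ⊢
  have hcover : S ⊆ S.filter (fun m => ∃ N' : ℕ, N' ≤ B * N ∧ N / L ^ U < |∑ n ∈ Icc 1 N', G n * dI z ((n : ℤ) + s m)|) ∪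
      S.filter (fun m => ∃ N' : ℕ, (N' : ℤ) < s m ∧ N / L ^ U < |∑ n ∈ Icc 1 N', G n * dI z (s m - (n : ℤ))|) := by
    intro m hm
    rw [mem_union, mem_filter, mem_filter]
    rcases hS m hm with h | h
    · exact Or.inl ⟨hm, h⟩
    · exact Or.inr ⟨hm, h⟩
  have hc := (card_le_card hcover).trans (card_union_le _ _)
  have hc' : (S.card : ℝ) ≤ x / L ^ (U + 1) + x / L ^ (U + 1) := by
    have hc2 : (S.card : ℝ) ≤
        ((S.filter (fun m => ∃ N' : ℕ, N' ≤ B * N ∧ N / L ^ U < |∑ n ∈ Icc 1 N', G n * dI z ((n : ℤ) + s m)|)).card : ℝ) +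
        ((S.filter (fun m => ∃ N' : ℕ, (N' : ℤ) < s m ∧ N / L ^ U < |∑ n ∈ Icc 1 N', G n * dI z (s m - (n : ℤ))|)).card : ℝ) := by
      exact_mod_cast hc
    exact hc2.trans (add_le_add f1 f2)
  refine hc'.trans ?_
  have e : (x : ℝ) / L ^ (U + 1) + x / L ^ (U + 1) = (2 / L) * (x / L ^ U) := by
    rw [pow_succ]
    field_simp
    ring
  rw [e]
  calc (2 / L) * (x / L ^ U) ≤ 1 * (x / L ^ U) := by
        apply mul_le_mul_of_nonneg_right _ (by positivity)
        rw [div_le_one hL0]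
        linarith
    _ = _ := one_mul _

end Pool.Agent.K1H51.LD
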