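import Pool.Agent.TH646.LV.Level
import Pool.Agent.K1H51.LD.Two

set_option autoImplicit false

/-! Level of distribution `N exp (-K (log log N) ^ 2)` for the residues from a family, from the first moment
along the family (following the starting file `Pool.Agent.TH646.LV.Level`). -/

namespace Pool.Agent.K1H51.LD

open Finset
open Pool.Agent.H373R2.T7
open Pool.Agent.W93.AU (dI)
open Pool.Agent.W93.LV
open Pool.Agent.TH646.LV (choice2)

open Classical in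
set_option maxHeartbeats 4000000 in
theorem gen_lv (B T U U' : ℕ) : ∃ K N₀ : ℕ, ∀ N : ℕ, N₀ ≤ N →
    ∀ (x : ℕ) (s : ℕ → ℤ), Mom (2 * B + 2) N x (4 * T + 5 * U + 22) U' s →
    Mom (2 * B + 2) N x (4 * T + 5 * U + 22) U' (fun m => (((B + 1) * N + 1 : ℕ) : ℤ) - s m) →
    ∀ lam : ℕ → ℝ, (∀ q, |lam q| ≤ Real.log N ^ T) → ∀ Q : ℕ,
    (Q : ℝ) ≤ N * Real.exp (-(K * Real.log (Real.log N) ^ 2)) →
    ∀ S : Finset ℕ, S ⊆ Icc 1 x → (∀ m ∈ S, (0 < s m ∧ s m ≤ B * N) ∧ ∃ y ≤ B * N, N / Real.log N ^ U <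
      |∑ q ∈ (Icc 1 Q).filter (fun q => (s m).toNat.Coprime q),
        lam q * (Fu (fun n => ArithmeticFunction.vonMangoldt n) y q (s m).toNat - (y : ℝ) / Nat.totient q)|) →
    (S.card : ℝ) ≤ x / Real.log N ^ U := by
  obtain ⟨B0, h0⟩ := gen_two B (T + (T + U + 5)) (U + 1) U'
  obtain ⟨E1, hE1⟩ : ∃ E1, E1 = B0 + T + U + 5 := ⟨_, rfl⟩
  obtain ⟨n0, h0⟩ := h0 (E1 + 1)
  obtain ⟨n1, h1⟩ := choice2 (E1 + 1) (T + U + 3)
  obtain ⟨n2, h2⟩ := Vz_inv_small (E1 + 1)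
  obtain ⟨K1, hK1⟩ : ∃ K1 : ℕ, K1 = (3 * (1 + (E1 + 1)) + (T + U + 3) + 1) * ((E1 + 1) + 1) := ⟨_, rfl⟩
  obtain ⟨C0, hC0⟩ : ∃ C0 : ℕ, C0 = B + 1 := ⟨_, rfl⟩
  obtain ⟨R, hR⟩ := exists_nat_ge (4 + 504 * (C0 : ℝ) + Real.log (C0 : ℝ) + 2)
  have hC01 : 1 ≤ C0 := by omega
  have hlC0 : 0 ≤ Real.log (C0 : ℝ) := Real.log_natCast_nonneg C0
  refine ⟨K1 + (T + U + 8), n0 + n1 + n2 + 3 ^ R + 3, fun N hN x s hMom1 hMom2 lam hlam Q hQ S hSx hP => ?_⟩
  rw [show 4 * T + 5 * U + 22 = 2 * (T + (T + U + 5)) + 3 * (U + 1) + 9 by omega] at hMom1 hMom2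
  obtain ⟨P3, hP3⟩ : ∃ P3 : ℕ, P3 = 3 ^ R := ⟨_, rfl⟩
  rw [← hP3] at hN
  have hN1 : 1 ≤ N := by omega
  have hNr : (1 : ℝ) ≤ N := by exact_mod_cast hN1
  have hN0 : (0 : ℝ) < N := by linarith
  obtain ⟨L, hL⟩ : ∃ L, L = Real.log (N : ℝ) := ⟨_, rfl⟩
  have hLR : (R : ℝ) ≤ L := by
    rw [hL, Real.le_log_iff_exp_le hN0]
    have h1 : Real.exp (R : ℝ) ≤ (3 : ℝ) ^ R := by
      rw [show (R : ℝ) = R * 1 by ring, Real.exp_nat_mul]
      exact pow_le_pow_left₀ (Real.exp_pos _).le (by linarith [Real.exp_one_lt_d9]) R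
    refine h1.trans ?_
    exact_mod_cast (by rw [← hP3]; omega : 3 ^ R ≤ N)
  have hC0r : (1 : ℝ) ≤ C0 := by exact_mod_cast hC01
  have hbig : 4 + 504 * (C0 : ℝ) ≤ L := by linarith
  have hL1 : 1 ≤ L := by linarith
  have hL0 : 0 < L := by linarith
  -- the level
  obtain ⟨z, hz⟩ : ∃ z, z = ⌈L ^ E1⌉₊ := ⟨_, rfl⟩
  have hz1 : L ^ E1 ≤ z := by rw [hz]; exact Nat.le_ceil _
  have hz2 : (z : ℝ) ≤ L ^ (E1 + 1) := by
    have q1 : (z : ℝ) < L ^ E1 + 1 := by rw [hz]; exact Nat.ceil_lt_add_one (by positivity)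
    have q2 : 1 ≤ L ^ E1 := one_le_pow₀ (by linarith)
    rw [pow_succ]
    nlinarith
  have hzge : 1 ≤ z := by
    have : (1 : ℝ) ≤ z := (one_le_pow₀ hL1).trans hz1
    exact_mod_cast this
  -- the range
  obtain ⟨X, hX⟩ : ∃ X : ℕ, X = C0 * N := ⟨_, rfl⟩
  have hXN : N ≤ X := by rw [hX]; exact Nat.le_mul_of_pos_left _ (by omega)
  have hBcX : B * N ≤ X := by rw [hX, hC0]; exact Nat.mul_le_mul_right _ (by omega)
  obtain ⟨Lx, hLx⟩ : ∃ Lx, Lx = Real.log (X : ℝ) := ⟨_, rfl⟩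
  have hLx1 : L ≤ Lx := by
    rw [hL, hLx]
    exact Real.log_le_log hN0 (by exact_mod_cast hXN)
  have hLx2 : Lx ≤ 2 * L := by
    rw [hLx, hX]
    push_cast
    rw [Real.log_mul (by positivity) hN0.ne', ← hL]
    linarith
  have hV := h2 X (by omega) z hzge (by rw [← hLx]; exact hz2.trans (pow_le_pow_left₀ hL0.le hLx1 _))
  rw [← hLx] at hV
  -- the sieve
  obtain ⟨r, hr1, hr2⟩ := h1 N (by omega) z (by rw [← hL]; exact hz2)
  rw [← hL] at hr1 hr2 hQ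
  obtain ⟨ℓ, hℓ⟩ : ∃ ℓ, ℓ = Real.log L := ⟨_, rfl⟩
  rw [← hℓ, ← hK1] at hr2
  rw [← hℓ] at hQ
  have hℓ1 : 1 ≤ ℓ := by
    rw [hℓ, Real.le_log_iff_exp_le hL0]
    linarith [Real.exp_one_lt_d9]
  obtain ⟨W, hW⟩ : ∃ W : ℝ, W = ((z : ℝ) + 1) ^ r := ⟨_, rfl⟩
  rw [← hW] at hr2
  have hW1 : 1 ≤ W := by rw [hW]; exact one_le_pow₀ (by linarith [(Nat.cast_nonneg z : (0 : ℝ) ≤ z)])
  have h54 : 54 * L ^ (T + U + 4) ≤ Real.exp (((T + U + 8 : ℕ) : ℝ) * ℓ ^ 2) := by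
    have q0 : (54 : ℝ) ≤ Real.exp 4 := by
      have q1 := Real.exp_one_gt_d9
      calc (54 : ℝ) ≤ 2.7182818283 ^ 4 := by norm_num
        _ ≤ Real.exp 1 ^ 4 := pow_le_pow_left₀ (by norm_num) q1.le 4
        _ = Real.exp 4 := by rw [← Real.exp_nat_mul]; norm_num
    have q2 : L ^ (T + U + 4) = Real.exp (((T + U + 4 : ℕ) : ℝ) * ℓ) := by
      rw [Real.exp_nat_mul, hℓ, Real.exp_log hL0]
    rw [q2]
    calc 54 * Real.exp (((T + U + 4 : ℕ) : ℝ) * ℓ) ≤ Real.exp 4 * Real.exp (((T + U + 4 : ℕ) : ℝ) * ℓ) :=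
          mul_le_mul_of_nonneg_right q0 (Real.exp_pos _).le
      _ = Real.exp (4 + ((T + U + 4 : ℕ) : ℝ) * ℓ) := (Real.exp_add _ _).symm
      _ ≤ _ := by
          apply Real.exp_le_exp.2
          have q3 : ℓ ≤ ℓ ^ 2 := by nlinarith
          have q4 : (0 : ℝ) ≤ ((T + U + 4 : ℕ) : ℝ) := Nat.cast_nonneg _
          have q5 : ((T + U + 8 : ℕ) : ℝ) = ((T + U + 4 : ℕ) : ℝ) + 4 := by push_cast; ring
          rw [q5, add_mul]
          have q6 := mul_le_mul_of_nonneg_left q3 q4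
          nlinarith
  have hQN : (Q : ℝ) ≤ N := by
    refine hQ.trans ?_
    calc (N : ℝ) * Real.exp (-(((K1 + (T + U + 8) : ℕ) : ℝ) * ℓ ^ 2)) ≤ N * 1 := by
          apply mul_le_mul_of_nonneg_left _ hN0.le
          rw [Real.exp_le_one_iff, neg_nonpos]
          positivity
      _ = N := mul_one _
  have hQX : Q ≤ X := by
    have q2 : Q ≤ N := by exact_mod_cast hQN
    omega
  have hQW : 54 * L ^ (T + U + 4) * ((Q : ℝ) * W) ≤ N := by
    calc 54 * L ^ (T + U + 4) * ((Q : ℝ) * W) ≤ Real.exp (((T + U + 8 : ℕ) : ℝ) * ℓ ^ 2) *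
          ((N * Real.exp (-(((K1 + (T + U + 8) : ℕ) : ℝ) * ℓ ^ 2))) * Real.exp ((K1 : ℝ) * ℓ ^ 2)) :=
          mul_le_mul h54 (mul_le_mul hQ hr2 (by linarith) (by positivity)) (by positivity) (Real.exp_pos _).le
      _ = N * Real.exp (((T + U + 8 : ℕ) : ℝ) * ℓ ^ 2 + -(((K1 + (T + U + 8) : ℕ) : ℝ) * ℓ ^ 2) + (K1 : ℝ) * ℓ ^ 2) := by
          rw [Real.exp_add, Real.exp_add]
          ring
      _ = N := by
          have e : ((T + U + 8 : ℕ) : ℝ) * ℓ ^ 2 + -(((K1 + (T + U + 8) : ℕ) : ℝ) * ℓ ^ 2) + (K1 : ℝ) * ℓ ^ 2 = 0 := by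
            push_cast
            ring
          rw [e, Real.exp_zero, mul_one]
  -- the exceptional set
  rw [← hL] at hlam hP
  have hτ : (0 : ℝ) < L ^ (T + U + 5) := by positivity
  have key := h0 N (by omega) x s hMom1 hMom2 z (by rw [← hL]; exact (pow_le_pow_right₀ hL1 (by omega)).trans hz1)
    (by rw [← hL]; exact hz2)
    (DT lam Q (L ^ (T + U + 5))) (fun n => by
      refine (DT_le lam Q _ (L ^ T) hτ.le hlam n).trans (le_of_eq ?_)
      rw [← hL, ← pow_add]) S hSx (fun m hm => by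
      have := (hP m hm).1
      rw [abs_of_pos this.1]
      exact this.2) (by
      intro m hm
      obtain ⟨⟨ha0, ha1⟩, y, hy, hlt⟩ := hP m hm
      obtain ⟨a, haa⟩ : ∃ a, a = (s m).toNat := ⟨_, rfl⟩
      have has : ((a : ℕ) : ℤ) = s m := by rw [haa]; exact Int.toNat_of_nonneg ha0.le
      have ha : 0 < a := by
        have : (0 : ℤ) < a := by rw [has]; exact ha0
        exact_mod_cast this
      rw [← haa] at hlt
      rw [← has, ← hL]
      by_contra hcon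
      rw [not_or] at hcon
      obtain ⟨c1, c2⟩ := hcon
      push Not at c1 c2
      have haX : a ≤ X := by
        have g1 := ha1
        rw [← has] at g1
        have g2 : a ≤ B * N := by exact_mod_cast g1
        exact g2.trans hBcX
      have hyX : y ≤ X := hy.trans hBcX
      have s1 := c1 (y - a) (by omega)
      have s2 := c2 (a - 1) (by
        have : a - 1 < a := by omega
        exact_mod_cast this)
      have s3 := c2 (a - 1 - y) (by
        have : a - 1 - y < a := by omega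
        exact_mod_cast this)
      have d1 := det1 lam Q y a z r X (L ^ T) Lx Lx ha hzge haX hyX hQX hlam hV hLx.symm le_rfl (by linarith)
      have d2 := three lam Q a y z X (L ^ (T + U + 5)) (L ^ T) Lx hτ hlam ha haX hyX hLx.symm hV (by linarith)
      rw [← hW] at d1
      have d3 : 1 + Real.log (X : ℝ) ≤ 2 * Lx := by rw [← hLx]; linarith
      have d4 : Lx * (L ^ T / L ^ (T + U + 5) * (X * (1 + Real.log X) ^ 3)) ≤ Lx * (L ^ T / L ^ (T + U + 5) * (X * (2 * Lx) ^ 3)) := by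
        have g0 := log1_nonneg X
        have g1 : 0 ≤ Lx := by linarith
        gcongr
      have d5 := fin_num L Lx N X Q W (Real.exp (3 * (1 + Real.log z) - r)) z _ _ _ C0 T U E1 hL1 (by linarith) hLx2 hN0
        (by rw [hX]; push_cast; rfl) (by linarith) (Nat.cast_nonneg Q) hW1 (Real.exp_pos _).le (by
          refine le_trans (le_of_eq ?_) hr1
          push_cast
          ring_nf) (by exact_mod_cast hzge) hz1 (by omega) hQW hbig s1 s2 s3
      linarith)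
  rw [← hL] at key ⊢
  refine key.trans ?_
  apply div_le_div_of_nonneg_left (Nat.cast_nonneg _) (by positivity)
  exact pow_le_pow_right₀ hL1 (by omega)

end Pool.Agent.K1H51.LD
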